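import Pool.Agent.W8h56.SW.Defs
import Pool.Agent.W5h69.CR.Gen

/-!
# Sides of edges, stabilisers of hyperplanes, patterns in flats
-/

set_option autoImplicit false

namespace Pool.Agent.W8h56.SW

open Set Pool.Agent.W5h69.CR

variable {V : Type*} {Γ : SimpleGraph V} {G : Type*} [Group G] [MulAction G V] {K : Set V}

theorem side_smul (hG : Geo Γ G K) (g : G) (a b v : V) :
    g • v ∈ side Γ (g • a) (g • b) ↔ v ∈ side Γ a b := by
  unfold side
  simp only [Set.mem_ofPred_eq, hG.dist]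

theorem side_congr (hG : Geo Γ G K) (g : G) {a b u v : V} (h : side Γ u v = side Γ a b) :
    side Γ (g • u) (g • v) = side Γ (g • a) (g • b) := by
  ext x
  have h1 := side_smul hG g u v (g⁻¹ • x)
  have h2 := side_smul hG g a b (g⁻¹ • x)
  rw [smul_inv_smul] at h1 h2
  rw [h1, h2, h]

theorem side_compl (h : IsMedian Γ) {a b : V} (ab : Γ.Adj a b) : side Γ b a = (side Γ a b)ᶜ := by
  ext x
  have := bip h ab x
  simp only [side, Set.mem_ofPred_eq, mem_compl_iff]
  omega

theorem side_swap (h : IsMedian Γ) {a b u v : V} (ab : Γ.Adj a b) (uv : Γ.Adj u v)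
    (he : side Γ u v = side Γ a b) : side Γ v u = side Γ b a := by
  rw [side_compl h ab, side_compl h uv, he]

/-- two edges with a common vertex define different half-spaces -/
theorem side_inj (h : IsMedian Γ) {u v w : V} (uv : Γ.Adj u v) (uw : Γ.Adj u w)
    (he : side Γ u v = side Γ u w) : v = w := by
  by_contra hne
  have h1 : w ∈ side Γ u v := by
    show Γ.dist w u < Γ.dist w v
    rw [d1 uw.symm, d2 h uw uv (Ne.symm hne)]
    norm_num
  rw [he] at h1
  have h2 : Γ.dist w u < Γ.dist w w := h1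
  rw [SimpleGraph.dist_self] at h2
  omega

theorem side_ne {u v w : V} (uw : Γ.Adj u w) :
    side Γ u w ≠ side Γ v u := by
  intro he
  have h1 : u ∈ side Γ u w := by
    show Γ.dist u u < Γ.dist u w
    rw [SimpleGraph.dist_self, d1 uw]
    norm_num
  rw [he] at h1
  have h2 : Γ.dist u v < Γ.dist u u := h1
  rw [SimpleGraph.dist_self] at h2
  omega

/-- membership in the stabiliser -/
theorem mem_stab (hG : Geo Γ G K) {a b : V} (ab : Γ.Adj a b) {g : G}
    (h : side Γ (g • a) (g • b) = side Γ a b) : g ∈ wallStab Γ G a b := by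
  have key : ∀ g : G, side Γ (g • a) (g • b) = side Γ a b → ∀ u v : V,
      SameWall Γ a b u v → SameWall Γ a b (g • u) (g • v) := by
    intro g hg u v huv
    refine ⟨hG.adj g _ _ huv.1, ?_⟩
    rcases huv.2 with h1 | h1
    · left
      rw [side_congr hG g h1, hg]
    · right
      rw [side_congr hG g h1]
      exact side_swap hG.med ab (hG.adj g _ _ ab) hg
  have hinv : side Γ (g⁻¹ • a) (g⁻¹ • b) = side Γ a b := by
    have h1 := side_congr hG g⁻¹ h
    rw [inv_smul_smul, inv_smul_smul] at h1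
    exact h1.symm
  intro u v
  refine ⟨key g h u v, fun h2 => ?_⟩
  have h3 := key g⁻¹ hinv _ _ h2
  rwa [inv_smul_smul, inv_smul_smul] at h3

/-- the stabiliser depends only on the half-space -/
theorem stab_congr {a b u v : V} (h : side Γ u v = side Γ a b) (h' : side Γ v u = side Γ b a) :
    wallStab Γ G u v = wallStab Γ G a b := by
  ext g
  have e : ∀ x y, SameWall Γ u v x y ↔ SameWall Γ a b x y := by
    intro x y
    unfold SameWall
    rw [h, h']
  constructor
  · intro hg x y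
    rw [← e, ← e]
    exact hg x y
  · intro hg x y
    rw [e, e]
    exact hg x y

theorem stab_smul (hG : Geo Γ G K) (γ : G) {a b : V} {g : G} :
    g ∈ wallStab Γ G (γ • a) (γ • b) ↔ γ⁻¹ * g * γ ∈ wallStab Γ G a b := by
  have e : ∀ x y, SameWall Γ (γ • a) (γ • b) x y ↔ SameWall Γ a b (γ⁻¹ • x) (γ⁻¹ • y) := by
    intro x y
    have hadj : Γ.Adj x y ↔ Γ.Adj (γ⁻¹ • x) (γ⁻¹ • y) := by
      refine ⟨fun h => hG.adj _ _ _ h, fun h => ?_⟩
      have := hG.adj γ _ _ h
      rwa [smul_inv_smul, smul_inv_smul] at this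
    have hs : ∀ c d : V, side Γ x y = side Γ (γ • c) (γ • d) ↔
        side Γ (γ⁻¹ • x) (γ⁻¹ • y) = side Γ c d := by
      intro c d
      constructor
      · intro h
        have := side_congr hG γ⁻¹ h
        rwa [inv_smul_smul, inv_smul_smul] at this
      · intro h
        have := side_congr hG γ h
        rwa [smul_inv_smul, smul_inv_smul] at this
    unfold SameWall
    rw [hadj, hs, hs]
  constructor
  · intro hg x y
    have h1 := hg (γ • x) (γ • y)
    rw [e, e, inv_smul_smul, inv_smul_smul] at h1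
    simpa only [mul_smul] using h1
  · intro hg x y
    rw [e, e]
    have h1 := hg (γ⁻¹ • x) (γ⁻¹ • y)
    simpa only [mul_smul, smul_inv_smul] using h1

/-- a subgroup of finite index acts geometrically -/
theorem geo_sub (hG : Geo Γ G K) (N : Subgroup G) [hN : N.FiniteIndex] :
    ∃ K' : Set V, Geo Γ N K' := by
  classical
  have hfin : Finite (G ⧸ N) := Subgroup.finite_quotient_of_finiteIndex
  refine ⟨⋃ q : G ⧸ N, (fun v => (Quotient.out q)⁻¹ • v) '' K, hG.med, hG.loc,
    fun g v w h => hG.adj g v w h, fun v => ?_, ?_, fun v => ?_⟩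
  · have h1 := hG.stab v
    refine Set.Finite.of_finite_image (f := fun n : N => (n : G)) (h1.subset ?_)
      (fun a _ b _ h => Subtype.ext h)
    rintro _ ⟨n, hn, rfl⟩
    exact hn
  · exact Set.finite_iUnion fun q => hG.fin.image _
  · obtain ⟨g, hg⟩ := hG.cov v
    -- g = out * n
    have h1 : ((Quotient.out (g : G ⧸ N) : G))⁻¹ * g ∈ N := by
      rw [← QuotientGroup.eq]
      exact Quotient.out_eq _
    refine ⟨⟨_, h1⟩, Set.mem_iUnion.2 ⟨(g : G ⧸ N), g • v, hg, ?_⟩⟩
    show _ = ((Quotient.out (g : G ⧸ N) : G)⁻¹ * g) • v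
    rw [mul_smul]

/-- the side of a vertical edge of a flat depends only on its height -/
theorem side_flat (h : IsMedian Γ) {f : ℤ × ℤ → V} (hf : IsFlat Γ f) (x x' y : ℤ) :
    side Γ (f (x, y)) (f (x, y + 1)) = side Γ (f (x', y)) (f (x', y + 1)) := by
  have h1 : side Γ (f (x, y + 1)) (f (x, y)) = side Γ (f (x', y + 1)) (f (x', y)) := by
    ext v
    exact Rt_row h hf.swap y x x' v
  rw [side_compl h (hf.up x y).symm, side_compl h (hf.up x' y).symm, h1]

/-- the same pattern at two places of the lowest double row, with a bound independent of the flat -/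
theorem pattern (hG : Geo Γ G K) (n : ℕ) : ∃ N : ℕ, ∀ f : ℤ × ℤ → V, IsFlat Γ f →
    ∀ X y : ℤ, ∃ x1 x2 : ℤ, X ≤ x1 ∧ x1 < x2 ∧ x2 ≤ X + N ∧ Nested Γ f x1 x2 ∧
      ∃ g : G, ∀ i j : ℤ, x1 ≤ i → i ≤ x1 + n → y ≤ j → j ≤ y + n →
        g • f (i, j) = f (i + (x2 - x1), j) := by
  classical
  obtain ⟨E, hE⟩ := hG.nested
  have hB : (⋃ v ∈ K, {w | Γ.dist v w ≤ 2 * n}).Finite :=
    hG.fin.biUnion fun v _ => hG.ball (2 * n) v
  set B : Set V := ⋃ v ∈ K, {w | Γ.dist v w ≤ 2 * n} with hBdef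
  have hP : (Set.univ.pi fun _ : Fin (n + 1) × Fin (n + 1) => B).Finite :=
    Set.Finite.pi fun _ => hB
  obtain ⟨N, hN⟩ := pigeon E hP
  refine ⟨N, fun f hf X y => ?_⟩
  choose γ hγ using fun v : V => hG.cov v
  let D : ℕ → (Fin (n + 1) × Fin (n + 1) → V) := fun m ij =>
    γ (f (X + m, y)) • f (X + m + ij.1, y + ij.2)
  obtain ⟨μ, hμ1, hμ2, hμ3⟩ := hN D (fun m hm => by
      rintro ⟨i, j⟩ -
      refine Set.mem_biUnion (hγ (f (X + m, y))) ?_
      show Γ.dist _ _ ≤ 2 * n
      rw [hG.dist]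
      have := hf (X + m, y) (X + m + i, y + j)
      simp only at this
      rw [abs_of_nonpos (by omega), abs_of_nonpos (by omega)] at this
      have hi := i.2
      have hj := j.2
      show Γ.dist (f (X + m, y)) (f (X + m + i, y + j)) ≤ 2 * n
      omega)
  obtain ⟨i', j', hij', hj'E, hne'⟩ := hE _ hf (fun i => X + (μ i : ℤ)) (fun i j h1 h2 => by
    have := hμ1 i j h1 h2
    omega)
  obtain ⟨m, hm⟩ : ∃ i, μ i' = i := ⟨_, rfl⟩
  obtain ⟨m', hm'⟩ : ∃ j, μ j' = j := ⟨_, rfl⟩
  have hlt : m < m' := by rw [← hm, ← hm']; exact hμ1 i' j' hij' hj'E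
  have hmL : m' ≤ N := by rw [← hm']; exact hμ2 j' hj'E
  have he : D m = D m' := by rw [← hm, ← hm', hμ3 i' (by omega), hμ3 j' hj'E]
  simp only [hm, hm'] at hne'
  refine ⟨X + m, X + m', by omega, by omega, by omega, hne',
    (γ (f (X + m', y)))⁻¹ * γ (f (X + m, y)), fun i j q1 q2 q3 q4 => ?_⟩
  have h1 := congrFun he (⟨(i - (X + m)).toNat, by omega⟩, ⟨(j - y).toNat, by omega⟩)
  simp only [D] at h1
  rw [show X + (m : ℤ) + ((i - (X + m)).toNat : ℤ) = i by omega,
    show y + ((j - y).toNat : ℤ) = j by omega,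
    show X + (m' : ℤ) + ((i - (X + m)).toNat : ℤ) = i + (X + m' - (X + m)) by omega] at h1
  rw [mul_smul, h1, inv_smul_smul]

end Pool.Agent.W8h56.SW
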