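import Pool.Agent.W8h56.SW.Basic

/-!
# Flats crossed by chains of hyperplanes with separable common stabilisers
-/

set_option autoImplicit false

namespace Pool.Agent.W8h56.SW

open Set Pool.Agent.W5h69.CR

variable {V : Type*} {Γ : SimpleGraph V} {G : Type*} [Group G] [MulAction G V] {K : Set V}

theorem sep_conj (γ : G) {H H' : Subgroup G} (hH : ∀ g, g ∈ H' ↔ γ⁻¹ * g * γ ∈ H)
    (h : Separable H) : Separable H' := by
  intro g hg
  rw [hH] at hg
  obtain ⟨L, hL, hle, hgL⟩ := h _ hg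
  have hmem : ∀ x : G, x ∈ L.comap (MulAut.conj γ⁻¹).toMonoidHom ↔ γ⁻¹ * x * γ ∈ L := by
    intro x
    simp [Subgroup.mem_comap]
  refine ⟨L.comap (MulAut.conj γ⁻¹).toMonoidHom, ⟨?_⟩, fun x hx => ?_, fun hx => hgL ?_⟩
  · rw [Subgroup.index_comap_of_surjective L (MulAut.conj γ⁻¹).surjective]
    exact hL.index_ne_zero
  · rw [hH] at hx
    exact (hmem x).2 (hle hx)
  · exact (hmem g).1 hx

theorem mem_chain {c : ℕ → V} {J : Finset ℕ} {g : G} :
    g ∈ chainStab Γ G c J ↔ ∀ j ∈ J, g ∈ wallStab Γ G (c j) (c (j + 1)) := by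
  unfold chainStab
  simp only [Subgroup.mem_iInf]

theorem chain_smul (hG : Geo Γ G K) (γ : G) (c : ℕ → V) (J : Finset ℕ) (g : G) :
    g ∈ chainStab Γ G (fun j => γ • c j) J ↔ γ⁻¹ * g * γ ∈ chainStab Γ G c J := by
  rw [mem_chain, mem_chain]
  refine forall₂_congr fun j _ => ?_
  exact stab_smul hG γ

theorem chain_congr {c c' : ℕ → V} {J : Finset ℕ} (h : ∀ j ∈ J, wallStab Γ G (c j) (c (j + 1)) =
    wallStab Γ G (c' j) (c' (j + 1))) : chainStab Γ G c J = chainStab Γ G c' J := by
  ext g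
  rw [mem_chain, mem_chain]
  refine forall₂_congr fun j hj => ?_
  rw [h j hj]

/-- the stabiliser of the wall between two rows does not depend on the column -/
theorem stab_flat (h : IsMedian Γ) {f : ℤ × ℤ → V} (hf : IsFlat Γ f) (x x' y : ℤ) :
    wallStab Γ G (f (x, y)) (f (x, y + 1)) = wallStab Γ G (f (x', y)) (f (x', y + 1)) := by
  refine stab_congr (side_flat h hf x x' y) ?_
  exact side_swap h (hf.up x' y) (hf.up x y) (side_flat h hf x x' y)

theorem chain_flat (h : IsMedian Γ) {f : ℤ × ℤ → V} (hf : IsFlat Γ f) (x x' y : ℤ)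
    (J : Finset ℕ) :
    chainStab Γ G (fun j => f (x, y + j)) J = chainStab Γ G (fun j => f (x', y + j)) J := by
  refine chain_congr fun j _ => ?_
  have := stab_flat (G := G) h hf x x' (y + j)
  push_cast
  rw [← add_assoc]
  exact this

/-- A subgroup of finite index such that the chains of hyperplanes with separable stabiliser are
clean modulo it. -/
theorem exists_sep1 (hG : Geo Γ G K) (n : ℕ) (J : Finset ℕ) (hJ : ∀ j ∈ J, j ≤ n) (hn : n ∈ J) :
    ∃ N : Subgroup G, N.Normal ∧ N.FiniteIndex ∧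
    ∀ c : ℕ → V, (∀ i ≤ n, Γ.Adj (c i) (c (i + 1))) → Separable (chainStab Γ G c J) →
      ∀ w, Γ.Adj (c n) w → ∀ g ∈ N,
      (∀ i ∈ J, i < n → side Γ (g • c i) (g • c (i + 1)) = side Γ (c i) (c (i + 1))) →
      side Γ (g • c n) (g • c (n + 1)) = side Γ (c n) w → c (n + 1) = w := by
  classical
  -- the finite set of representatives
  set B : Set V := ⋃ v ∈ K, {w | Γ.dist v w ≤ n + 1} with hBdef
  have hBf : B.Finite := hG.fin.biUnion fun v _ => hG.ball (n + 1) v
  have hT : ((Set.univ.pi fun _ : Fin (n + 2) => B) ×ˢ B).Finite :=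
    (Set.Finite.pi fun _ => hBf).prod hBf
  let ext : (Fin (n + 2) → V) → ℕ → V := fun p i => p ⟨i % (n + 2), Nat.mod_lt _ (by omega)⟩
  have hex : ∀ t : (Fin (n + 2) → V) × V, ∃ N : Subgroup G, N.Normal ∧ N.FiniteIndex ∧
      ((∀ i ≤ n, Γ.Adj (ext t.1 i) (ext t.1 (i + 1))) →
        Separable (chainStab Γ G (ext t.1) J) → Γ.Adj (ext t.1 n) t.2 → ∀ g ∈ N,
        (∀ i ∈ J, i < n → side Γ (g • ext t.1 i) (g • ext t.1 (i + 1)) =
          side Γ (ext t.1 i) (ext t.1 (i + 1))) →
        side Γ (g • ext t.1 n) (g • ext t.1 (n + 1)) = side Γ (ext t.1 n) t.2 →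
        ext t.1 (n + 1) = t.2) := by
    rintro ⟨p, w⟩
    obtain ⟨c, hc⟩ : ∃ c, ext p = c := ⟨_, rfl⟩
    simp only [hc]
    by_cases h : (∀ i ≤ n, Γ.Adj (c i) (c (i + 1))) ∧ Separable (chainStab Γ G c J) ∧
        Γ.Adj (c n) w ∧ c (n + 1) ≠ w ∧ ∃ g : G,
        (∀ i ∈ J, i < n → side Γ (g • c i) (g • c (i + 1)) = side Γ (c i) (c (i + 1))) ∧
        side Γ (g • c n) (g • c (n + 1)) = side Γ (c n) w
    · obtain ⟨h1, h2, h3, h4, g0, h5, h6⟩ := h
      have hgs : g0 ∉ chainStab Γ G c J := by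
        intro hm
        have hm' := mem_chain.1 hm n hn
        have h7 : SameWall Γ (c n) (c (n + 1)) (g0 • c n) (g0 • c (n + 1)) :=
          (hm' _ _).1 ⟨h1 n le_rfl, Or.inl rfl⟩
        rcases h7.2 with h8 | h8
        · exact h4 (side_inj hG.med (h1 n le_rfl) h3 (by rw [← h6, h8]))
        · exact side_ne (v := c (n + 1)) h3 (by rw [← h6, h8])
      obtain ⟨L, hL, hle, hgL⟩ := h2 g0 hgs
      refine ⟨L.normalCore, inferInstance, inferInstance, fun _ _ _ k hk e1 e2 => ?_⟩
      exfalso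
      apply hgL
      have hkey : k⁻¹ * g0 ∈ chainStab Γ G c J := by
        rw [mem_chain]
        intro j hjJ
        have hj := hJ j hjJ
        refine mem_stab hG (h1 j hj) ?_
        rcases Nat.lt_or_ge j n with hjn | hjn
        · have h7 := side_congr hG k⁻¹ ((h5 j hjJ hjn).trans (e1 j hjJ hjn).symm)
          rw [inv_smul_smul, inv_smul_smul, ← mul_smul, ← mul_smul] at h7
          exact h7
        · obtain rfl : j = n := by omega
          have h7 := side_congr hG k⁻¹ (h6.trans e2.symm)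
          rw [inv_smul_smul, inv_smul_smul, ← mul_smul, ← mul_smul] at h7
          exact h7
      have h10 := L.mul_mem (L.normalCore_le hk) (hle hkey)
      rwa [mul_inv_cancel_left] at h10
    · refine ⟨⊤, inferInstance, inferInstance, fun h1 h2 h3 g _ h5 h6 => ?_⟩
      by_contra h4
      exact h ⟨h1, h2, h3, h4, g, h5, h6⟩
  choose Nt hNn hNf hNt using hex
  set T := hT.toFinset with hTdef
  refine ⟨⨅ t : T, Nt t, ?_, ?_, ?_⟩
  · exact Subgroup.normal_iInf_normal fun t => hNn t
  · exact Subgroup.finiteIndex_iInf fun t => hNf t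
  intro c hc hsep w hw g hg e1 e2
  obtain ⟨γ, hγ⟩ := hG.cov (c 0)
  -- the distances from the first vertex
  have hd : ∀ i ≤ n + 1, Γ.dist (c 0) (c i) ≤ i := by
    intro i
    induction i with
    | zero => intro _; rw [SimpleGraph.dist_self]
    | succ i ih =>
      intro hi
      have h1 := ih (by omega)
      have h2 := d1 (hc i (by omega))
      have h3 := hG.med.1.dist_triangle (u := c 0) (v := c i) (w := c (i + 1))
      omega
  have hdw : Γ.dist (c 0) w ≤ n + 1 := by
    have h1 := hd n (by omega)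
    have h2 := d1 hw
    have h3 := hG.med.1.dist_triangle (u := c 0) (v := c n) (w := w)
    omega
  set p : Fin (n + 2) → V := fun i => γ • c i with hp
  have hext : ∀ i ≤ n + 1, ext p i = γ • c i := by
    intro i hi
    show γ • c (i % (n + 2)) = γ • c i
    rw [Nat.mod_eq_of_lt (by omega)]
  have hmemt : (p, γ • w) ∈ T := by
    rw [hTdef, Set.Finite.mem_toFinset]
    refine ⟨fun i _ => Set.mem_biUnion hγ ?_, Set.mem_biUnion hγ ?_⟩
    · show Γ.dist (γ • c 0) (γ • c i) ≤ n + 1
      rw [hG.dist]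
      have := hd i (by omega)
      omega
    · show Γ.dist (γ • c 0) (γ • w) ≤ n + 1
      rw [hG.dist]
      exact hdw
  have hNle : (⨅ t : T, Nt t) ≤ Nt (p, γ • w) := iInf_le (fun t : T => Nt t) ⟨_, hmemt⟩
  have hk : γ * g * γ⁻¹ ∈ Nt (p, γ • w) := (hNn _).conj_mem _ (hNle hg) γ
  have hconj : ∀ v : V, (γ * g * γ⁻¹) • γ • v = γ • g • v := by
    intro v
    simp only [← mul_smul, inv_mul_cancel_right]
  have hres := hNt (p, γ • w) (fun i hi => by
      show Γ.Adj (ext p i) (ext p (i + 1))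
      rw [hext i (by omega), hext (i + 1) (by omega)]
      exact hG.adj γ _ _ (hc i hi)) (by
      show Separable (chainStab Γ G (ext p) J)
      have h1 : chainStab Γ G (ext p) J = chainStab Γ G (fun j => γ • c j) J :=
        chain_congr fun j hj => by
          have := hJ j hj
          rw [hext j (by omega), hext (j + 1) (by omega)]
      rw [h1]
      exact sep_conj γ (chain_smul hG γ c J) hsep) (by
      show Γ.Adj (ext p n) (γ • w)
      rw [hext n (by omega)]
      exact hG.adj γ _ _ hw) _ hk (fun i hiJ hi => by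
      show side Γ ((γ * g * γ⁻¹) • ext p i) ((γ * g * γ⁻¹) • ext p (i + 1)) =
        side Γ (ext p i) (ext p (i + 1))
      rw [hext i (by omega), hext (i + 1) (by omega), hconj, hconj]
      exact side_congr hG γ (e1 i hiJ hi)) (by
      show side Γ ((γ * g * γ⁻¹) • ext p n) ((γ * g * γ⁻¹) • ext p (n + 1)) =
        side Γ (ext p n) (γ • w)
      rw [hext n (by omega), hext (n + 1) (by omega), hconj, hconj]
      exact side_congr hG γ e2)
  have hres' : ext p (n + 1) = γ • w := hres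
  rw [hext (n + 1) le_rfl] at hres'
  exact MulAction.injective γ hres'

theorem exists_sep (hG : Geo Γ G K) (n : ℕ) :
    ∃ N : Subgroup G, N.FiniteIndex ∧ ∀ J : Finset ℕ, (∀ j ∈ J, j ≤ n) → n ∈ J →
    ∀ c : ℕ → V, (∀ i ≤ n, Γ.Adj (c i) (c (i + 1))) → Separable (chainStab Γ G c J) →
      ∀ w, Γ.Adj (c n) w → ∀ g ∈ N,
      (∀ i < n, side Γ (g • c i) (g • c (i + 1)) = side Γ (c i) (c (i + 1))) →
      side Γ (g • c n) (g • c (n + 1)) = side Γ (c n) w → c (n + 1) = w := by
  classical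
  have hex : ∀ J : Finset ℕ, ∃ N : Subgroup G, N.FiniteIndex ∧ ((∀ j ∈ J, j ≤ n) → n ∈ J →
    ∀ c : ℕ → V, (∀ i ≤ n, Γ.Adj (c i) (c (i + 1))) → Separable (chainStab Γ G c J) →
      ∀ w, Γ.Adj (c n) w → ∀ g ∈ N,
      (∀ i < n, side Γ (g • c i) (g • c (i + 1)) = side Γ (c i) (c (i + 1))) →
      side Γ (g • c n) (g • c (n + 1)) = side Γ (c n) w → c (n + 1) = w) := by
    intro J
    by_cases h : (∀ j ∈ J, j ≤ n) ∧ n ∈ J
    · obtain ⟨N, -, h2, h3⟩ := exists_sep1 hG n J h.1 h.2
      exact ⟨N, h2, fun _ _ c c1 c2 w hw g hg e1 e2 => h3 c c1 c2 w hw g hg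
        (fun i _ hi => e1 i hi) e2⟩
    · exact ⟨⊤, inferInstance, fun h1 h2 => absurd ⟨h1, h2⟩ h⟩
  choose N hN1 hN2 using hex
  refine ⟨⨅ J : (Finset.range (n + 1)).powerset, N J, Subgroup.finiteIndex_iInf fun J => hN1 J,
    fun J h1 h2 c c1 c2 w hw g hg => hN2 J h1 h2 c c1 c2 w hw g ?_⟩
  have hJ : J ∈ (Finset.range (n + 1)).powerset := by
    rw [Finset.mem_powerset]
    intro j hj
    have := h1 j hj
    exact Finset.mem_range.2 (by omega)
  exact (iInf_le (fun J : (Finset.range (n + 1)).powerset => N J) ⟨J, hJ⟩) hg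

/-- **Flats crossed by chains of hyperplanes with separable stabilisers.** -/
theorem main_sep (hG : Geo Γ G K) (N : Subgroup G) [hN : N.FiniteIndex] (n : ℕ) :
    ∃ M : ℕ, ∀ f : ℤ × ℤ → V, IsFlat Γ f → ∀ y0 : ℤ,
      (∀ y, y0 ≤ y → y < y0 + M → (∃ J : Finset ℕ, (∀ j ∈ J, j ≤ n) ∧ n ∈ J ∧
          Separable (chainStab Γ G (fun j => f (0, y + j)) J)) ∨
        Clean Γ N (f (0, y + n)) (f (0, y + n + 1))) →
      ∃ φ : Multiplicative (ℤ × ℤ) →* G, Function.Injective φ := by
  classical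
  obtain ⟨N', hN'f, hN'⟩ := exists_sep hG n
  obtain ⟨K', hGN⟩ := geo_sub hG (N ⊓ N')
  obtain ⟨a, ha⟩ := pattern hGN (n + 1)
  obtain ⟨L, hL⟩ := zfin' hGN a
  refine ⟨L, fun f hf y0 hyp => ?_⟩
  obtain ⟨x1, x2, hx0, hlt, hxa, hnest, g, hg⟩ := ha f hf 0 y0
  -- the agreement propagates
  have step : ∀ x x' y : ℤ, y0 ≤ y → y < y0 + L →
      (∀ j : ℕ, j ≤ n → g • f (x, y + j) = f (x', y + j)) →
      g • f (x, y + n + 1) = f (x', y + n + 1) := by
    intro x x' y h1 h2 h3
    have h4 := h3 n le_rfl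
    rcases hyp y h1 h2 with ⟨J, hJ1, hJ2, h5⟩ | h5
    · symm
      have h6 := hN' J hJ1 hJ2 (fun j : ℕ => f (x', y + j)) (fun i _ => by
          show Γ.Adj (f (x', y + (i : ℕ))) (f (x', y + ((i + 1 : ℕ) : ℤ)))
          push_cast
          rw [← add_assoc]
          exact hf.up x' (y + i)) (by
          rw [chain_flat hG.med hf x' 0 y J]
          exact h5) (g • f (x, y + n + 1)) (by
          show Γ.Adj (f (x', y + (n : ℕ))) (g • f (x, y + n + 1))
          rw [← h4]
          exact hG.adj (g : G) _ _ (hf.up x (y + n))) (g : G) (Subgroup.mem_inf.1 g.2).2 (by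
          intro i hi
          show side Γ ((g : G) • f (x', y + (i : ℕ))) ((g : G) • f (x', y + ((i + 1 : ℕ) : ℤ))) =
            side Γ (f (x', y + (i : ℕ))) (f (x', y + ((i + 1 : ℕ) : ℤ)))
          have e1 := h3 i (by omega)
          have e2 := h3 (i + 1) (by omega)
          rw [← e1, ← e2]
          refine side_congr hG (g : G) ?_
          show side Γ ((g : G) • f (x, y + (i : ℕ))) ((g : G) • f (x, y + ((i + 1 : ℕ) : ℤ))) =
            side Γ (f (x, y + (i : ℕ))) (f (x, y + ((i + 1 : ℕ) : ℤ)))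
          have e3 := side_flat hG.med hf x x' (y + i)
          have e1' : (g : G) • f (x, y + (i : ℕ)) = f (x', y + (i : ℕ)) := e1
          have e2' : (g : G) • f (x, y + ((i + 1 : ℕ) : ℤ)) = f (x', y + ((i + 1 : ℕ) : ℤ)) := e2
          rw [e1', e2']
          push_cast
          rw [← add_assoc]
          exact e3.symm) (by
          show side Γ ((g : G) • f (x', y + (n : ℕ))) ((g : G) • f (x', y + ((n + 1 : ℕ) : ℤ))) =
            side Γ (f (x', y + (n : ℕ))) ((g : G) • f (x, y + n + 1))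
          have h4' : (g : G) • f (x, y + (n : ℕ)) = f (x', y + (n : ℕ)) := h4
          rw [← h4']
          push_cast
          rw [← add_assoc]
          have e3 := side_congr hG (g : G) (side_flat hG.med hf x' x (y + n))
          rw [← e3, h4'])
      have h7 : f (x', y + ((n + 1 : ℕ) : ℤ)) = g • f (x, y + n + 1) := h6
      push_cast at h7
      rwa [← add_assoc] at h7
    · have h4' : (g : G) • f (x, y + (n : ℕ)) = f (x', y + (n : ℕ)) := h4
      refine h5 (g : G) (Subgroup.mem_inf.1 g.2).1 1 N.one_mem (f (x', y + n)) _ _ ?_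
        (hf.up x' (y + n)) ?_ ?_
      · rw [← h4']
        exact hG.adj g _ _ (hf.up x (y + n))
      · rw [← h4']
        exact side_congr hG (g : G) (side_flat hG.med hf x 0 (y + n))
      · rw [one_smul, one_smul]
        exact side_flat hG.med hf x' 0 (y + n)
  have all : ∀ x x' : ℤ, (∀ m : ℕ, m ≤ n → g • f (x, y0 + m) = f (x', y0 + m)) →
      ∀ m : ℕ, m ≤ n + L → g • f (x, y0 + m) = f (x', y0 + m) := by
    intro x x' h m
    induction m using Nat.strong_induction_on with
    | _ m ih =>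
      intro hm
      rcases Nat.lt_or_ge n m with h1 | h1
      · obtain ⟨i, rfl⟩ : ∃ i, m = i + n + 1 := ⟨m - n - 1, by omega⟩
        have h2 := step x x' (y0 + i) (by omega) (by omega) (fun j hj => by
          have := ih (i + j) (by omega) (by omega)
          push_cast at this
          rwa [← add_assoc] at this)
        push_cast
        rw [show y0 + ((i : ℤ) + n + 1) = y0 + i + n + 1 by ring]
        exact h2
      · exact h m h1
  have c1 := all x1 x2 (fun m hm => by
    have := hg x1 (y0 + m) le_rfl (by omega) (by omega) (by push_cast; omega)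
    rwa [show x1 + (x2 - x1) = x2 by ring] at this)
  have c2 := all (x1 + 1) (x2 + 1) (fun m hm => by
    have := hg (x1 + 1) (y0 + m) (by omega) (by push_cast; omega) (by omega) (by push_cast; omega)
    rwa [show x1 + 1 + (x2 - x1) = x2 + 1 by ring] at this)
  obtain ⟨φ, hφ⟩ := hL f hf g x1 x2 y0 hlt (by omega) hnest (fun t h1 h2 => by
    obtain ⟨m, hm⟩ := Int.eq_ofNat_of_zero_le (sub_nonneg.2 h1)
    obtain rfl : t = y0 + m := by omega
    exact ⟨c1 m (by omega), c2 m (by omega)⟩)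
  exact ⟨(N ⊓ N').subtype.comp φ, fun x y h => hφ (Subtype.ext h)⟩

end Pool.Agent.W8h56.SW
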