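import Pool.Agent.W8h56.SW.Chain

/-!
# Flats crossed by chains of hyperplanes with virtually cyclic common stabilisers
-/

set_option autoImplicit false

namespace Pool.Agent.W8h56.SW

open Set Pool.Agent.W5h69.CR

variable {V : Type*} {Γ : SimpleGraph V} {G : Type*} [Group G] [MulAction G V] {K : Set V}

/-- If `s` maps a half-space into itself properly, then the distances between the complement of
the half-space and its image under `s ^ k` are greater than `k`. -/
theorem growth (hG : Geo Γ G K) {a b : V} (ab : Γ.Adj a b) (s : G)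
    (hs : ∀ v, Γ.dist v (s • b) < Γ.dist v (s • a) → Γ.dist v b < Γ.dist v a)
    (hb : ¬ Γ.dist b (s • b) < Γ.dist b (s • a)) (d : ℕ) :
    ∀ (k : ℕ) (u w : V), Γ.dist u w = d → ¬ Γ.dist u b < Γ.dist u a →
      Γ.dist w (s ^ k • b) < Γ.dist w (s ^ k • a) → k + 1 ≤ d := by
  have hpow : ∀ (k : ℕ) (v : V), Γ.dist v (s ^ k • b) < Γ.dist v (s ^ k • a) →
      Γ.dist v b < Γ.dist v a := by
    intro k
    induction k with
    | zero => intro v hv; simpa using hv
    | succ k ih =>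
      intro v hv
      apply hs
      have h1 : Γ.dist (s⁻¹ • v) (s ^ k • b) < Γ.dist (s⁻¹ • v) (s ^ k • a) := by
        rw [← hG.dist s, ← hG.dist s (s⁻¹ • v) (s ^ k • a), smul_inv_smul, ← mul_smul, ← mul_smul,
          ← pow_succ']
        exact hv
      have h2 := ih _ h1
      rw [← hG.dist s, ← hG.dist s (s⁻¹ • v) a, smul_inv_smul] at h2
      exact h2
  induction d with
  | zero =>
    intro k u w huw hu hw
    have : u = w := hG.med.1.dist_eq_zero_iff.1 huw
    subst this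
    exact absurd (hpow k _ hw) hu
  | succ d ih =>
    intro k u w huw hu hw
    obtain ⟨u1, hu1, hd⟩ := exists_nb hG.med huw
    by_cases h1 : Γ.dist u1 b < Γ.dist u1 a
    · cases k with
      | zero => omega
      | succ k =>
        -- the edge crosses the wall
        have hcr := hs_edge hG.med ab _ u1 u hu1.symm rfl h1 (by
          have := step hG.med ab u
          omega)
        have h2 : ¬ Γ.dist u1 (s • b) < Γ.dist u1 (s • a) := by
          intro h3
          have h4 : ¬ Γ.dist u (s • b) < Γ.dist u (s • a) := fun h5 => hu (hs _ h5)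
          have hcr' := hs_edge hG.med (hG.adj s _ _ ab) _ u1 u hu1.symm rfl h3 (by
            have := step hG.med (hG.adj s _ _ ab) u
            omega)
          apply hb
          rw [← hcr' b, hcr b, SimpleGraph.dist_self, d1 ab.symm]
          norm_num
        have h3 := ih k (s⁻¹ • u1) (s⁻¹ • w) (by rw [hG.dist]; exact hd) (by
          intro h4
          apply h2
          rw [← hG.dist s, ← hG.dist s (s⁻¹ • u1) a, smul_inv_smul] at h4
          exact h4) (by
          rw [← hG.dist s, ← hG.dist s (s⁻¹ • w) (s ^ k • a), smul_inv_smul, ← mul_smul,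
            ← mul_smul, ← pow_succ']
          exact hw)
        omega
    · have := ih k u1 w hd h1 hw
      omega

/-- An element with linear growth is not conjugate to a different power. -/
theorem bs (hG : Geo Γ G K) (s γ : G) (v : V) (hgrow : ∀ k : ℕ, k ≤ Γ.dist v (s ^ k • v))
    (a b : ℤ) (ha : a ≠ 0) (hb : b ≠ 0) (h : γ * s ^ a * γ⁻¹ = s ^ b) : a.natAbs = b.natAbs := by
  have hgz : ∀ k : ℤ, k.natAbs ≤ Γ.dist v (s ^ k • v) := by
    intro k
    rcases Int.natAbs_eq k with hk | hk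
    · have := hgrow k.natAbs
      rw [← zpow_natCast, ← hk] at this
      exact this
    · have := hgrow k.natAbs
      rw [← hG.dist (s ^ k), ← mul_smul, ← zpow_natCast, ← zpow_add,
        show k + ((k.natAbs : ℕ) : ℤ) = 0 by omega, zpow_zero, one_smul, SimpleGraph.dist_comm]
        at this
      exact this
  have hup : ∀ (g : G) (j : ℕ), Γ.dist v (g ^ j • v) ≤ j * Γ.dist v (g • v) := by
    intro g j
    induction j with
    | zero => simp
    | succ j ih =>
      have h1 := hG.med.1.dist_triangle (u := v) (v := g ^ j • v) (w := g ^ (j + 1) • v)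
      have h2 : Γ.dist (g ^ j • v) (g ^ (j + 1) • v) = Γ.dist v (g • v) := by
        rw [pow_succ, mul_smul, hG.dist]
      rw [add_mul, one_mul]
      omega
  have hupz : ∀ k : ℤ, Γ.dist v (s ^ k • v) ≤ k.natAbs * Γ.dist v (s • v) := by
    intro k
    rcases Int.natAbs_eq k with hk | hk
    · have := hup s k.natAbs
      rw [← zpow_natCast, ← hk] at this
      exact this
    · have := hup s k.natAbs
      rw [← hG.dist (s ^ k), ← mul_smul, ← zpow_natCast, ← zpow_add,
        show k + ((k.natAbs : ℕ) : ℤ) = 0 by omega, zpow_zero, one_smul, SimpleGraph.dist_comm]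
        at this
      exact this
  -- the main inequality
  have main : ∀ (γ : G) (a b : ℤ), γ * s ^ a * γ⁻¹ = s ^ b → ∀ j : ℕ,
      a.natAbs ^ j ≤ 2 * (j * Γ.dist v (γ • v)) + b.natAbs ^ j * Γ.dist v (s • v) := by
    intro γ a b h j
    have hconj : ∀ k : ℤ, γ * s ^ (a * k) * γ⁻¹ = s ^ (b * k) := by
      intro k
      rw [zpow_mul, zpow_mul, ← h, conj_zpow]
    have hj : γ ^ j * s ^ (a ^ j) * (γ ^ j)⁻¹ = s ^ (b ^ j) := by
      have : ∀ j : ℕ, ∀ c : ℤ, γ ^ j * s ^ (a ^ j * c) * (γ ^ j)⁻¹ = s ^ (b ^ j * c) := by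
        intro j
        induction j with
        | zero => intro c; simp
        | succ j ih =>
          intro c
          have e1 : γ ^ (j + 1) * s ^ (a ^ (j + 1) * c) * (γ ^ (j + 1))⁻¹ =
              γ * (γ ^ j * s ^ (a ^ j * (a * c)) * (γ ^ j)⁻¹) * γ⁻¹ := by
            rw [pow_succ' γ, pow_succ a, mul_assoc (a ^ j)]
            group
          rw [e1, ih, show b ^ j * (a * c) = a * (b ^ j * c) by ring, hconj]
          congr 1
          ring
      simpa using this j 1
    have h1 := hgz (a ^ j)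
    rw [Int.natAbs_pow] at h1
    have h2 : s ^ (a ^ j) = (γ ^ j)⁻¹ * s ^ (b ^ j) * γ ^ j := by
      rw [← hj]
      group
    rw [h2, mul_smul, mul_smul, ← hG.dist (γ ^ j), smul_inv_smul] at h1
    have h3 := hG.med.1.dist_triangle (u := γ ^ j • v) (v := v) (w := s ^ (b ^ j) • γ ^ j • v)
    have h4 := hG.med.1.dist_triangle (u := v) (v := s ^ (b ^ j) • v)
      (w := s ^ (b ^ j) • γ ^ j • v)
    rw [hG.dist] at h4
    have h5 := hup γ j
    have h6 := hupz (b ^ j)
    rw [Int.natAbs_pow] at h6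
    have h7 : Γ.dist (γ ^ j • v) v = Γ.dist v (γ ^ j • v) := SimpleGraph.dist_comm
    omega
  have contra : ∀ (γ : G) (a b : ℤ), b ≠ 0 → γ * s ^ a * γ⁻¹ = s ^ b →
      ¬ b.natAbs < a.natAbs := by
    intro γ a b hb h hlt
    have hA : (0 : ℝ) < a.natAbs := by exact_mod_cast (by omega : 0 < a.natAbs)
    have hB : (0 : ℝ) < b.natAbs := by exact_mod_cast (by omega : 0 < b.natAbs)
    have hAB : (b.natAbs : ℝ) < a.natAbs := by exact_mod_cast hlt
    have hA1 : (1 : ℝ) < a.natAbs := by exact_mod_cast (by omega : 1 < a.natAbs)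
    have t1 := tendsto_pow_const_mul_const_pow_of_abs_lt_one 1
      (r := (a.natAbs : ℝ)⁻¹) (by rw [abs_of_pos (inv_pos.2 hA)]; exact inv_lt_one_of_one_lt₀ hA1)
    have t2 := tendsto_pow_atTop_nhds_zero_of_lt_one (r := (b.natAbs : ℝ) / a.natAbs)
      (by positivity) ((div_lt_one hA).2 hAB)
    have t3 := (t1.const_mul (2 * (Γ.dist v (γ • v) : ℝ))).add
      (t2.mul_const (Γ.dist v (s • v) : ℝ))
    rw [mul_zero, zero_mul, add_zero] at t3
    obtain ⟨j, hj⟩ := (t3.eventually (gt_mem_nhds (show (0 : ℝ) < 1 by norm_num))).exists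
    have h1 := main γ a b h j
    have h2 : (a.natAbs : ℝ) ^ j ≤ 2 * (j * Γ.dist v (γ • v)) +
        (b.natAbs : ℝ) ^ j * Γ.dist v (s • v) := by exact_mod_cast h1
    have h3 : (0 : ℝ) < (a.natAbs : ℝ) ^ j := by positivity
    rw [pow_one, inv_pow, div_pow] at hj
    have h4 : 2 * (Γ.dist v (γ • v) : ℝ) * (j * ((a.natAbs : ℝ) ^ j)⁻¹) +
        (b.natAbs : ℝ) ^ j / (a.natAbs : ℝ) ^ j * Γ.dist v (s • v) =
        (2 * (j * Γ.dist v (γ • v)) + (b.natAbs : ℝ) ^ j * Γ.dist v (s • v)) /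
          (a.natAbs : ℝ) ^ j := by
      field_simp
    rw [h4, div_lt_one h3] at hj
    linarith
  have c1 := contra γ a b hb h
  have c2 := contra γ⁻¹ b a ha (by rw [← h]; group)
  omega

/-- **Flats crossed by chains of hyperplanes with virtually cyclic stabilisers.** -/
theorem main_cyc (hG : Geo Γ G K) (n : ℕ) :
    ∃ M : ℕ, ∀ f : ℤ × ℤ → V, IsFlat Γ f → ∀ y : ℕ → ℤ, (∀ i j, i < j → j ≤ M → y i < y j) →
      (∀ i ≤ M, ∃ J : Finset ℕ, (∀ j ∈ J, j ≤ n) ∧
        VirtuallyCyclic (chainStab Γ G (fun j => f (0, y i + j)) J)) →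
      ∃ φ : Multiplicative (ℤ × ℤ) →* G, Function.Injective φ := by
  classical
  obtain ⟨E, hE⟩ := hG.nested
  have hB : (⋃ v ∈ K, {w | Γ.dist v w ≤ n + 1}).Finite :=
    hG.fin.biUnion fun v _ => hG.ball (n + 1) v
  set B : Set V := ⋃ v ∈ K, {w | Γ.dist v w ≤ n + 1} with hBdef
  have hP : (Set.univ.pi fun _ : Fin (n + 2) => B).Finite := Set.Finite.pi fun _ => hB
  obtain ⟨M, hM⟩ := pigeon E hP
  refine ⟨M, fun f hf y hy hcyc => ?_⟩
  choose γ' hγ' using fun v : V => hG.cov v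
  let D : ℕ → (Fin (n + 2) → V) := fun m k => γ' (f (0, y m)) • f (0, y m + k)
  obtain ⟨μ, hμ1, hμ2, hμ3⟩ := hM D (fun m hm => by
      rintro k -
      refine Set.mem_biUnion (hγ' (f (0, y m))) ?_
      show Γ.dist _ _ ≤ n + 1
      rw [hG.dist]
      have := hf (0, y m) (0, y m + k)
      simp only at this
      rw [abs_of_nonpos (by omega), abs_of_nonpos (by omega)] at this
      have hk := k.2
      show Γ.dist (f (0, y m)) (f (0, y m + k)) ≤ n + 1
      omega)
  obtain ⟨i', j', hij', hj'E, hne'⟩ := hE _ hf.swap (fun i => y (μ i)) (fun i j h1 h2 =>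
    hy _ _ (hμ1 i j h1 h2) (hμ2 j h2))
  obtain ⟨i, hi⟩ : ∃ i, μ i' = i := ⟨_, rfl⟩
  obtain ⟨j, hj⟩ : ∃ j, μ j' = j := ⟨_, rfl⟩
  have hlt : i < j := by rw [← hi, ← hj]; exact hμ1 i' j' hij' hj'E
  have hjM : j ≤ M := by rw [← hj]; exact hμ2 j' hj'E
  have hij : D i = D j := by rw [← hi, ← hj, hμ3 i' (by omega), hμ3 j' hj'E]
  simp only [hi, hj] at hne'
  obtain ⟨t, ht⟩ : ∃ t, y i = t := ⟨_, rfl⟩
  obtain ⟨t', ht'⟩ : ∃ t', y j = t' := ⟨_, rfl⟩
  have htt : t < t' := by rw [← ht, ← ht']; exact hy i j hlt hjM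
  rw [ht, ht'] at hne'
  -- the vertical shift
  obtain ⟨γ, hγ⟩ : ∃ γ : G, ∀ k : ℕ, k ≤ n + 1 → γ • f (0, t + k) = f (0, t' + k) := by
    refine ⟨(γ' (f (0, y j)))⁻¹ * γ' (f (0, y i)), fun k hk => ?_⟩
    have h1 := congrFun hij ⟨k, by omega⟩
    simp only [D] at h1
    rw [mul_smul, ← ht, h1, inv_smul_smul, ht']
  -- the horizontal translation
  obtain ⟨a, ha⟩ := pattern hG ((t' - t).toNat + n + 1)
  obtain ⟨x1, x2, -, hx, -, hnest, s, hs⟩ := ha f hf 0 t
  have hs' : ∀ r, t ≤ r → r ≤ t' + n + 1 → s • f (x1, r) = f (x2, r) ∧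
      s • f (x1 + 1, r) = f (x2 + 1, r) := by
    intro r h1 h2
    have e1 := hs x1 r le_rfl (by omega) h1 (by push_cast; omega)
    have e2 := hs (x1 + 1) r (by omega) (by push_cast; omega) h1 (by push_cast; omega)
    rw [show x1 + (x2 - x1) = x2 by ring] at e1
    rw [show x1 + 1 + (x2 - x1) = x2 + 1 by ring] at e2
    exact ⟨e1, e2⟩
  have hside : ∀ r, t ≤ r → r + 1 ≤ t' + n + 1 → side Γ (s • f (0, r)) (s • f (0, r + 1)) =
      side Γ (f (0, r)) (f (0, r + 1)) := by
    intro r h1 h2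
    rw [← side_congr hG s (side_flat hG.med hf x1 0 r), (hs' r h1 (by omega)).1,
      (hs' (r + 1) (by omega) h2).1]
    exact side_flat hG.med hf x2 0 r
  obtain ⟨J, hJ, z, hz, hzf⟩ := hcyc j hjM
  have hmem : ∀ r, t ≤ r → r ≤ t' → s ∈ chainStab Γ G (fun j => f (0, r + j)) J := by
    intro r h1 h2
    rw [mem_chain]
    intro k hkJ
    have hk := hJ k hkJ
    show s ∈ wallStab Γ G (f (0, r + (k : ℕ))) (f (0, r + ((k + 1 : ℕ) : ℤ)))
    push_cast
    rw [← add_assoc]
    exact mem_stab hG (hf.up 0 (r + k)) (hside (r + k) (by omega) (by omega))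
  -- the growth of `s`
  set p := f (x1, t) with hp
  set q := f (x1 + 1, t) with hq
  have hpq : Γ.Adj p q := hf.right x1 t
  obtain ⟨hsp, hsq⟩ := hs' t le_rfl (by omega)
  have hS : ∀ v, Γ.dist v (s • q) < Γ.dist v (s • p) → Γ.dist v q < Γ.dist v p := by
    intro v hv
    rw [hsp, hsq] at hv
    exact hnest t v hv
  have hS' : ¬ Γ.dist q (s • q) < Γ.dist q (s • p) := by
    intro h
    rw [hsp, hsq] at h
    exact not_Rt hf hx t h
  have hpow : ∀ (m : ℕ) (v : V), Γ.dist v q < Γ.dist v p →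
      Γ.dist (s ^ m • v) (s ^ m • q) < Γ.dist (s ^ m • v) (s ^ m • p) := by
    intro m v hv
    rwa [hG.dist, hG.dist]
  have hstep : ∀ v, Γ.dist v q < Γ.dist v p → Γ.dist (s • v) q < Γ.dist (s • v) p := by
    intro v hv
    apply hS
    rwa [hG.dist, hG.dist]
  have hgrow : ∀ k : ℕ, k ≤ Γ.dist p (s ^ k • p) := by
    intro k
    cases k with
    | zero => exact Nat.zero_le _
    | succ k =>
      -- `s ^ (k+1) p` lies in `s ^ k S`
      have h1 : Γ.dist (s • p) q < Γ.dist (s • p) p := by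
        rw [hsp]
        have e1 := hf (x2, t) (x1 + 1, t)
        have e2 := hf (x2, t) (x1, t)
        simp only [sub_self, abs_zero, add_zero] at e1 e2
        rw [abs_of_nonneg (by omega)] at e1 e2
        show Γ.dist (f (x2, t)) (f (x1 + 1, t)) < Γ.dist (f (x2, t)) (f (x1, t))
        omega
      have h2 := hpow k _ h1
      rw [← mul_smul, ← pow_succ] at h2
      exact growth hG hpq s hS hS' _ k p _ rfl (by
        rw [SimpleGraph.dist_self, d1 hpq]
        norm_num) h2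
  have hsinf : ∀ m : ℤ, s ^ m = 1 → m = 0 := by
    intro m hm
    have : ∀ k : ℕ, s ^ k = 1 → k = 0 := by
      intro k hk
      have := hgrow k
      rw [hk, one_smul, SimpleGraph.dist_self] at this
      omega
    rcases Int.natAbs_eq m with h | h
    · have h1 := this m.natAbs (by rw [← zpow_natCast, ← h, hm])
      omega
    · have h1 := this m.natAbs (by
        rw [← zpow_natCast, show ((m.natAbs : ℕ) : ℤ) = -m by omega, zpow_neg, hm, inv_one])
      omega
  -- the two elements of the virtually cyclic group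
  rw [ht'] at hz hzf
  set H := chainStab Γ G (fun j => f (0, t' + j)) J with hH
  have hsH : s ∈ H := hmem t' htt.le le_rfl
  have hrH : γ * s * γ⁻¹ ∈ H := by
    have h1 : H = chainStab Γ G (fun j => γ • f (0, t + j)) J := by
      rw [hH]
      refine chain_congr fun k hkJ => ?_
      have hk := hJ k hkJ
      show wallStab Γ G (f (0, t' + (k : ℕ))) (f (0, t' + ((k + 1 : ℕ) : ℤ))) =
        wallStab Γ G (γ • f (0, t + (k : ℕ))) (γ • f (0, t + ((k + 1 : ℕ) : ℤ)))
      rw [hγ k (by omega), hγ (k + 1) (by omega)]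
    rw [h1, chain_smul hG γ (fun j : ℕ => f (0, t + j)) J]
    have h2 : γ⁻¹ * (γ * s * γ⁻¹) * γ = s := by group
    rw [h2]
    exact hmem t le_rfl htt.le
  obtain ⟨P, hP0, hP⟩ : ∃ P : ℕ, 0 < P ∧ ∀ g ∈ H, g ^ P ∈ Subgroup.zpowers z := by
    refine ⟨((Subgroup.zpowers z).subgroupOf H).index.factorial, Nat.factorial_pos _,
      fun g hg => ?_⟩
    have h1 := Subgroup.pow_mem_of_index_ne_zero_of_dvd hzf.index_ne_zero (⟨g, hg⟩ : H)
      (n := ((Subgroup.zpowers z).subgroupOf H).index.factorial)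
      (fun m h1 h2 => Nat.dvd_factorial h1 h2)
    exact h1
  obtain ⟨e, he⟩ := Subgroup.mem_zpowers_iff.1 (hP s hsH)
  obtain ⟨e', he'⟩ := Subgroup.mem_zpowers_iff.1 (hP _ hrH)
  have hee : e ≠ 0 := by
    rintro rfl
    rw [zpow_zero] at he
    have := hsinf P (by rw [zpow_natCast, ← he])
    omega
  have hee' : e' ≠ 0 := by
    rintro rfl
    rw [zpow_zero, conj_pow] at he'
    have h1 : s ^ P = 1 := by
      have : s ^ P = γ⁻¹ * (γ * s ^ P * γ⁻¹) * γ := by group
      rw [this, ← he']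
      group
    have := hsinf P (by rw [zpow_natCast, h1])
    omega
  have hconj : γ * s ^ ((P : ℤ) * e) * γ⁻¹ = s ^ ((P : ℤ) * e') := by
    calc γ * s ^ ((P : ℤ) * e) * γ⁻¹ = ((γ * s * γ⁻¹) ^ P) ^ e := by
          rw [conj_pow, conj_zpow, zpow_mul, zpow_natCast]
      _ = (z ^ e') ^ e := by rw [he']
      _ = (z ^ e) ^ e' := by rw [← zpow_mul, ← zpow_mul, mul_comm]
      _ = s ^ ((P : ℤ) * e') := by rw [he, zpow_mul, zpow_natCast]
  have hP0' : (P : ℤ) ≠ 0 := by omega
  have habs := bs hG s γ p hgrow _ _ (mul_ne_zero hP0' hee) (mul_ne_zero hP0' hee') hconj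
  -- a power of `s` commutes with the square of `γ`
  obtain ⟨m, hm0, hm⟩ : ∃ m : ℕ, 0 < m ∧ (γ * s ^ m * γ⁻¹ = s ^ m ∨ γ * s ^ m * γ⁻¹ = (s ^ m)⁻¹) := by
    refine ⟨((P : ℤ) * e).natAbs, by
      have := mul_ne_zero hP0' hee
      omega, ?_⟩
    have key : ∀ c c' : ℤ, γ * s ^ c * γ⁻¹ = s ^ c' → c.natAbs = c'.natAbs →
        γ * s ^ c.natAbs * γ⁻¹ = s ^ c.natAbs ∨ γ * s ^ c.natAbs * γ⁻¹ = (s ^ c.natAbs)⁻¹ := by
      intro c c' h1 h2
      have h3 : γ * (s ^ c)⁻¹ * γ⁻¹ = (s ^ c')⁻¹ := by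
        rw [← h1]
        group
      rw [← zpow_neg, ← zpow_neg] at h3
      rw [← zpow_natCast, ← zpow_neg]
      rcases Int.natAbs_eq c with h4 | h4 <;> rcases Int.natAbs_eq c' with h5 | h5
      · left
        rw [← h4, h1]
        congr 1
        omega
      · right
        rw [← h4, h1]
        congr 1
        omega
      · right
        rw [show ((c.natAbs : ℕ) : ℤ) = -c by omega, h3]
        congr 1
        omega
      · left
        rw [show ((c.natAbs : ℕ) : ℤ) = -c by omega, h3]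
        congr 1
        omega
    exact key _ _ hconj habs
  have hcomm : s ^ m * (γ * γ) = (γ * γ) * s ^ m := by
    have h2 : (γ * γ) * s ^ m * (γ * γ)⁻¹ = s ^ m := by
      rcases hm with h1 | h1
      · calc (γ * γ) * s ^ m * (γ * γ)⁻¹ = γ * (γ * s ^ m * γ⁻¹) * γ⁻¹ := by group
          _ = s ^ m := by rw [h1, h1]
      · calc (γ * γ) * s ^ m * (γ * γ)⁻¹ = γ * (γ * s ^ m * γ⁻¹) * γ⁻¹ := by group
          _ = γ * (s ^ m)⁻¹ * γ⁻¹ := by rw [h1]
          _ = (γ * s ^ m * γ⁻¹)⁻¹ := by group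
          _ = s ^ m := by rw [h1, inv_inv]
    calc s ^ m * (γ * γ) = ((γ * γ) * s ^ m * (γ * γ)⁻¹) * (γ * γ) := by rw [h2]
      _ = (γ * γ) * s ^ m := by group
  have hγ0 : γ • f (0, t) = f (0, t') := by simpa using hγ 0 (by omega)
  have hγ1 : γ • f (0, t + 1) = f (0, t' + 1) := by simpa using hγ 1 (by omega)
  -- the half-space above the row `t`
  set T : V → Prop := fun v => Γ.dist v (f (0, t + 1)) < Γ.dist v (f (0, t)) with hT
  have hTγ : ∀ v, T v → T (γ • v) := by
    intro v hv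
    refine hne' 0 _ ?_
    show Γ.dist (γ • v) (f (0, t' + 1)) < Γ.dist (γ • v) (f (0, t'))
    rw [← hγ0, ← hγ1, hG.dist, hG.dist]
    exact hv
  have hTγ' : ¬ T (γ⁻¹ • f (0, t + 1)) := by
    intro h
    refine not_Rt hf.swap (x := t) (x' := t') htt 0 ?_
    show Γ.dist (f (0, t + 1)) (f (0, t' + 1)) < Γ.dist (f (0, t + 1)) (f (0, t'))
    have h' : Γ.dist (γ⁻¹ • f (0, t + 1)) (f (0, t + 1)) <
      Γ.dist (γ⁻¹ • f (0, t + 1)) (f (0, t)) := h
    rw [← hG.dist γ, ← hG.dist γ (γ⁻¹ • _) (f (0, t)), smul_inv_smul, hγ0, hγ1] at h'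
    exact h'
  have hTs : ∀ v, T v ↔ T (s • v) := by
    intro v
    have h1 : T = fun v => v ∈ side Γ (f (0, t + 1)) (f (0, t)) := rfl
    have h2 := side_swap hG.med (hf.up 0 t) (hG.adj s _ _ (hf.up 0 t))
      (hside t le_rfl (by omega))
    rw [h1]
    show v ∈ side Γ (f (0, t + 1)) (f (0, t)) ↔ s • v ∈ side Γ (f (0, t + 1)) (f (0, t))
    rw [← side_smul hG s, h2]
  refine zcrit (s ^ m) (γ * γ) hcomm (fun v => Γ.dist v q < Γ.dist v p) T (fun v hv => ?_)
    (f (0, t + 1)) ?_ ?_ (fun v => ?_) (fun v hv => ?_) q ?_ ?_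
  · rw [mul_smul]
    exact hTγ _ (hTγ _ hv)
  · exact Rt_self hf.swap le_rfl 0
  · intro h
    apply hTγ'
    have := hTγ _ h
    rwa [mul_inv_rev, mul_smul, smul_inv_smul] at this
  · clear hm hm0 hcomm
    induction m with
    | zero => simp
    | succ m ih =>
      rw [pow_succ', mul_smul, ← hTs]
      exact ih
  · clear hm hm0 hcomm
    induction m with
    | zero => simpa using hv
    | succ m ih =>
      rw [pow_succ', mul_smul]
      exact hstep _ ih
  · rw [SimpleGraph.dist_self, d1 hpq.symm]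
    norm_num
  · intro h
    obtain ⟨m', rfl⟩ : ∃ m', m = m' + 1 := ⟨m - 1, by omega⟩
    have h1 : ∀ (k : ℕ) (v : V), Γ.dist v q < Γ.dist v p →
        Γ.dist (s ^ k • v) q < Γ.dist (s ^ k • v) p := by
      intro k
      induction k with
      | zero => intro v hv; simpa using hv
      | succ k ih =>
        intro v hv
        rw [pow_succ', mul_smul]
        exact hstep _ (ih v hv)
    have h2 := h1 m' _ h
    rw [pow_succ, mul_inv_rev, ← mul_smul] at h2
    have h3 : s ^ m' * (s⁻¹ * (s ^ m')⁻¹) = s⁻¹ := by group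
    rw [h3] at h2
    apply hS'
    rw [← hG.dist s, ← hG.dist s (s⁻¹ • q) p, smul_inv_smul] at h2
    exact h2

/-- **Main theorem.** -/
theorem main (hG : Geo Γ G K) (N : Subgroup G) [hN : N.FiniteIndex] (n : ℕ) :
    ∃ M : ℕ, ∀ f : ℤ × ℤ → V, IsFlat Γ f → ∀ y0 : ℤ,
      (∀ y, y0 ≤ y → y < y0 + M →
        (∃ J : Finset ℕ, (∀ j ∈ J, j ≤ n) ∧ n ∈ J ∧
          Separable (chainStab Γ G (fun j => f (0, y + j)) J)) ∨
        (∃ J : Finset ℕ, (∀ j ∈ J, j ≤ n) ∧
          VirtuallyCyclic (chainStab Γ G (fun j => f (0, y + j)) J)) ∨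
        Clean Γ N (f (0, y + n)) (f (0, y + n + 1))) →
      ∃ φ : Multiplicative (ℤ × ℤ) →* G, Function.Injective φ := by
  classical
  obtain ⟨M0, hM0⟩ := main_sep hG N n
  obtain ⟨M1, hM1⟩ := main_cyc hG n
  refine ⟨(M1 + 1) * (M0 + 1), fun f hf y0 h => ?_⟩
  by_cases hrun : ∃ i ≤ M1, ∀ y, y0 + i * (M0 + 1) ≤ y → y < y0 + i * (M0 + 1) + M0 →
      (∃ J : Finset ℕ, (∀ j ∈ J, j ≤ n) ∧ n ∈ J ∧
          Separable (chainStab Γ G (fun j => f (0, y + j)) J)) ∨
        Clean Γ N (f (0, y + n)) (f (0, y + n + 1))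
  · obtain ⟨i, -, h1⟩ := hrun
    exact hM0 f hf _ h1
  · have hrun' : ∀ i : ℕ, i ≤ M1 → ∃ y : ℤ, y0 + i * (M0 + 1) ≤ y ∧ y < y0 + i * (M0 + 1) + M0 ∧
        ¬ ((∃ J : Finset ℕ, (∀ j ∈ J, j ≤ n) ∧ n ∈ J ∧
          Separable (chainStab Γ G (fun j => f (0, y + j)) J)) ∨
        Clean Γ N (f (0, y + n)) (f (0, y + n + 1))) := by
      intro i hi
      by_contra hc
      refine hrun ⟨i, hi, fun y h1 h2 => ?_⟩
      by_contra h3
      exact hc ⟨y, h1, h2, h3⟩
    choose! y h1 h2 h3 using hrun'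
    have hmul : ∀ i j : ℕ, i < j → (i : ℤ) * (M0 + 1) + (M0 + 1) ≤ j * (M0 + 1) := by
      intro i j hij
      have : (i : ℤ) + 1 ≤ j := by exact_mod_cast hij
      have h4 : ((i : ℤ) + 1) * (M0 + 1) ≤ j * (M0 + 1) :=
        mul_le_mul_of_nonneg_right this (by omega)
      linarith
    refine hM1 f hf y (fun i j hij hj => ?_) (fun i hi => ?_)
    · have e1 := h2 i (by omega)
      have e2 := h1 j hj
      have e3 := hmul i j hij
      omega
    · have e1 := h1 i hi
      have e2 := h2 i hi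
      have e3 := hmul i (M1 + 1) (by omega)
      have e4 : (0 : ℤ) ≤ i * (M0 + 1) := by positivity
      rcases h (y i) (by omega) (by push_cast at e3 ⊢; omega) with h5 | h5 | h5
      · exact absurd (Or.inl h5) (h3 i hi)
      · exact h5
      · exact absurd (Or.inr h5) (h3 i hi)

end Pool.Agent.W8h56.SW
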