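import Mathlib

/-!
# Hyperplanes of median graphs, their stabilisers, separable subgroups: definitions
-/

set_option autoImplicit false

namespace Pool.Agent.W8h56.SW

/-- The vertices closer to `a` than to `b`; for an edge `ab` of a median graph (the 1-skeleton of a
CAT(0) cube complex) this is the half-space containing `a` of the hyperplane crossed by `ab`. -/
def side {V : Type*} (Γ : SimpleGraph V) (a b : V) : Set V := {v | Γ.dist v a < Γ.dist v b}

/-- `uv` is an edge which crosses the hyperplane crossed by the edge `ab`: the two edges define the
same pair of half-spaces. -/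
def SameWall {V : Type*} (Γ : SimpleGraph V) (a b u v : V) : Prop :=
  Γ.Adj u v ∧ (side Γ u v = side Γ a b ∨ side Γ u v = side Γ b a)

/-- The stabiliser in `G` of the hyperplane crossed by the edge `ab`: the elements of `G` which map
the set of the edges crossing it onto itself. -/
def wallStab {V : Type*} (Γ : SimpleGraph V) (G : Type*) [Group G] [MulAction G V] (a b : V) :
    Subgroup G where
  carrier := {g | ∀ u v : V, SameWall Γ a b u v ↔ SameWall Γ a b (g • u) (g • v)}
  one_mem' := fun u v => by simp
  mul_mem' := fun {g h} hg hh u v => by
    rw [mul_smul, mul_smul]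
    exact (hh u v).trans (hg _ _)
  inv_mem' := fun {g} hg u v => by
    have h := hg (g⁻¹ • u) (g⁻¹ • v)
    rw [smul_inv_smul, smul_inv_smul] at h
    exact h.symm

/-- The common stabiliser in `G` of the hyperplanes crossed by the edges `c j c (j + 1)`, `j ∈ J`, of
the path `c`. -/
def chainStab {V : Type*} (Γ : SimpleGraph V) (G : Type*) [Group G] [MulAction G V] (c : ℕ → V)
    (J : Finset ℕ) : Subgroup G :=
  ⨅ j ∈ J, wallStab Γ G (c j) (c (j + 1))

/-- The subgroup `H` is separable: it is the intersection of subgroups of finite index. -/
def Separable {G : Type*} [Group G] (H : Subgroup G) : Prop :=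
  ∀ g : G, g ∉ H → ∃ L : Subgroup G, L.FiniteIndex ∧ H ≤ L ∧ g ∉ L

/-- The subgroup `H` is virtually cyclic (finite or not). -/
def VirtuallyCyclic {G : Type*} [Group G] (H : Subgroup G) : Prop :=
  ∃ z ∈ H, ((Subgroup.zpowers z).subgroupOf H).FiniteIndex

/-- The hyperplane crossed by the edge `ab` is clean modulo the group `N` of automorphisms: there
are no two different edges `uv`, `uw` with a common vertex `u` whose half-spaces containing `u` are
translates by elements of `N` of the half-space of `ab` containing `a` (in the quotient by `N` the
hyperplane does not cross or directly osculate itself). -/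
def Clean {V : Type*} (Γ : SimpleGraph V) {G : Type*} [Group G] [MulAction G V] (N : Subgroup G)
    (a b : V) : Prop :=
  ∀ g ∈ N, ∀ h ∈ N, ∀ u v w : V, Γ.Adj u v → Γ.Adj u w →
    side Γ u v = side Γ (g • a) (g • b) → side Γ u w = side Γ (h • a) (h • b) → v = w

end Pool.Agent.W8h56.SW
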