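import Pool.Agent.W8h56.SW.Rows

/-!
# Rows of flats with common stabilisers which are virtually cyclic or of finite index
-/

set_option autoImplicit false

namespace Pool.Agent.W8h56.SW

open Set Pool.Agent.W5h69.CR

theorem relIndex_zpowers {G : Type*} [Group G] (H : Subgroup G) (z : G) (e : ℤ) (he : e ≠ 0)
    (h : z ^ e ∈ H) : H.relIndex (Subgroup.zpowers z) ≠ 0 := by
  have hfin : Finite (Subgroup.zpowers z ⧸ H.subgroupOf (Subgroup.zpowers z)) := by
    refine Finite.of_surjective (fun r : Fin e.natAbs => QuotientGroup.mk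
      (s := H.subgroupOf (Subgroup.zpowers z))
      (⟨z ^ (r : ℤ), Subgroup.mem_zpowers_iff.2 ⟨r, rfl⟩⟩ : Subgroup.zpowers z)) ?_
    intro q
    obtain ⟨⟨x, hx⟩, rfl⟩ := QuotientGroup.mk_surjective q
    obtain ⟨k, rfl⟩ := Subgroup.mem_zpowers_iff.1 hx
    have h1 := Int.emod_nonneg k he
    have h2 := Int.emod_lt_abs k he
    have h3 := Int.natCast_natAbs e
    refine ⟨⟨(k % e).toNat, by omega⟩, ?_⟩
    refine QuotientGroup.eq.2 ?_
    rw [Subgroup.mem_subgroupOf]
    show (z ^ (((k % e).toNat : ℕ) : ℤ))⁻¹ * z ^ k ∈ H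
    rw [Int.toNat_of_nonneg h1, ← zpow_neg, ← zpow_add,
      show -(k % e) + k = e * (k / e) by
        have := Int.emod_add_mul_ediv k e
        omega, zpow_mul]
    exact H.zpow_mem h _
  exact Subgroup.index_ne_zero_of_finite

variable {V : Type*} {Γ : SimpleGraph V} {G : Type*} [Group G] [MulAction G V] {K : Set V}

/-- Two rows of a flat have a common infinite cyclic group in their stabilisers. -/
theorem exists_common (hG : Geo Γ G K) {f : ℤ × ℤ → V} (hf : IsFlat Γ f) (n : ℕ) (y y' : ℤ)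
    (hy : y ≤ y') : ∃ s : G, (∀ m : ℤ, s ^ m = 1 → m = 0) ∧
      s ∈ halfStab Γ G (fun k => f (0, y + k)) n ∧ s ∈ halfStab Γ G (fun k => f (0, y' + k)) n := by
  obtain ⟨a, ha⟩ := pattern hG ((y' - y).toNat + n + 1)
  obtain ⟨x1, x2, -, hx, -, hnest, s, hs⟩ := ha f hf 0 y
  have hs' : ∀ r, y ≤ r → r ≤ y' + n + 1 → s • f (x1, r) = f (x2, r) ∧
      s • f (x1 + 1, r) = f (x2 + 1, r) := by
    intro r h1 h2
    have e1 := hs x1 r le_rfl (by omega) h1 (by push_cast; omega)
    have e2 := hs (x1 + 1) r (by omega) (by push_cast; omega) h1 (by push_cast; omega)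
    rw [show x1 + (x2 - x1) = x2 by ring] at e1
    rw [show x1 + 1 + (x2 - x1) = x2 + 1 by ring] at e2
    exact ⟨e1, e2⟩
  have hmem : ∀ r, y ≤ r → r ≤ y' → s ∈ halfStab Γ G (fun k => f (0, r + k)) n := by
    intro r h1 h2
    rw [mem_half hG]
    intro k hk
    show side Γ (s • f (0, r + (k : ℕ))) (s • f (0, r + ((k + 1 : ℕ) : ℤ))) =
      side Γ (f (0, r + (k : ℕ))) (f (0, r + ((k + 1 : ℕ) : ℤ)))
    push_cast
    rw [← add_assoc, ← side_congr hG s (side_flat hG.med hf x1 0 (r + k)),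
      (hs' (r + k) (by omega) (by omega)).1, (hs' (r + k + 1) (by omega) (by omega)).1]
    exact side_flat hG.med hf x2 0 (r + k)
  refine ⟨s, ?_, hmem y le_rfl hy, hmem y' hy le_rfl⟩
  -- infinite order
  set p := f (x1, y) with hp
  set q := f (x1 + 1, y) with hq
  have hpq : Γ.Adj p q := hf.right x1 y
  obtain ⟨hsp, hsq⟩ := hs' y le_rfl (by omega)
  have hS : ∀ v, Γ.dist v (s • q) < Γ.dist v (s • p) → Γ.dist v q < Γ.dist v p := by
    intro v hv
    rw [hsp, hsq] at hv
    exact hnest y v hv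
  have hS' : ¬ Γ.dist q (s • q) < Γ.dist q (s • p) := by
    intro h
    rw [hsp, hsq] at h
    exact not_Rt hf hx y h
  have hpow : ∀ k : ℕ, s ^ (k + 1) ≠ 1 := by
    intro k hk
    have := growth hG hpq s hS hS' _ (k + 1) p (s ^ (k + 1) • q) rfl (by
      rw [SimpleGraph.dist_self, d1 hpq]
      norm_num) (by
      rw [hG.dist, hG.dist, SimpleGraph.dist_self, d1 hpq.symm]
      norm_num)
    rw [hk, one_smul, d1 hpq] at this
    omega
  intro m hm
  by_contra hm0
  rcases lt_or_gt_of_ne hm0 with h | h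
  · refine hpow ((-m).toNat - 1) ?_
    rw [← zpow_natCast, show (((-m).toNat - 1 + 1 : ℕ) : ℤ) = -m by omega, zpow_neg, hm, inv_one]
  · refine hpow (m.toNat - 1) ?_
    rw [← zpow_natCast, show ((m.toNat - 1 + 1 : ℕ) : ℤ) = m by omega, hm]

theorem relIndex_of_cyclic (hG : Geo Γ G K) {f : ℤ × ℤ → V} (hf : IsFlat Γ f) (n : ℕ) (y y' : ℤ)
    (hy : y ≤ y') {z : G}
    (hz : (Subgroup.zpowers z).relIndex (halfStab Γ G (fun k => f (0, y + k)) n) ≠ 0) :
    (halfStab Γ G (fun k => f (0, y' + k)) n).relIndex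
      (halfStab Γ G (fun k => f (0, y + k)) n) ≠ 0 := by
  obtain ⟨s, hs, hs1, hs2⟩ := exists_common hG hf n y y' hy
  set H := halfStab Γ G (fun k => f (0, y + k)) n with hH
  obtain ⟨P, hP0, hP⟩ : ∃ P : ℕ, 0 < P ∧ ∀ g ∈ H, g ^ P ∈ Subgroup.zpowers z := by
    refine ⟨((Subgroup.zpowers z).subgroupOf H).index.factorial, Nat.factorial_pos _,
      fun g hg => ?_⟩
    have h1 := Subgroup.pow_mem_of_index_ne_zero_of_dvd (H := (Subgroup.zpowers z).subgroupOf H)
      hz (⟨g, hg⟩ : H)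
      (n := ((Subgroup.zpowers z).subgroupOf H).index.factorial)
      (fun m h1 h2 => Nat.dvd_factorial h1 h2)
    exact h1
  obtain ⟨e, he⟩ := Subgroup.mem_zpowers_iff.1 (hP s hs1)
  have he0 : e ≠ 0 := by
    rintro rfl
    rw [zpow_zero] at he
    have := hs P (by rw [zpow_natCast, ← he])
    omega
  refine Subgroup.relIndex_ne_zero_trans (relIndex_zpowers _ z e he0 ?_) hz
  rw [he]
  exact Subgroup.pow_mem _ hs2 P

theorem half_mono {f : ℤ × ℤ → V} {b c : ℤ} {m n : ℕ} (h1 : b ≤ c) (h2 : c + n ≤ b + m) :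
    halfStab Γ G (fun k => f (0, b + k)) m ≤ halfStab Γ G (fun k => f (0, c + k)) n := by
  intro g hg j hj v
  have h := hg ((c - b).toNat + j) (by omega) v
  have e1 : b + (((c - b).toNat + j : ℕ) : ℤ) = c + (j : ℕ) := by
    push_cast
    rw [Int.toNat_of_nonneg (by omega)]
    ring
  have e2 : b + (((c - b).toNat + j + 1 : ℕ) : ℤ) = c + ((j + 1 : ℕ) : ℤ) := by
    push_cast
    rw [Int.toNat_of_nonneg (by omega)]
    ring
  simp only [e1, e2] at h
  exact h

/-- **The dichotomy.** -/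
theorem main_dich (hG : Geo Γ G K) (n : ℕ) :
    ∃ M : ℕ, ∀ f : ℤ × ℤ → V, IsFlat Γ f → ∀ y0 : ℤ,
      (∀ y, y0 ≤ y → y < y0 + M →
        (∃ z : G, (Subgroup.zpowers z).relIndex (halfStab Γ G (fun k => f (0, y + k)) (n + 1)) ≠ 0) ∨
        (halfStab Γ G (fun k => f (0, y + k)) (n + 1)).relIndex
          (halfStab Γ G (fun k => f (0, y + k)) n) ≠ 0) →
      ∃ φ : Multiplicative (ℤ × ℤ) →* G, Function.Injective φ := by
  classical
  obtain ⟨M1, h1⟩ := main_rows hG n
  obtain ⟨M2, h2⟩ := main_rows hG (n + 1 + M1)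
  refine ⟨(M2 + 1) * (M1 + 1), fun f hf y0 h => ?_⟩
  by_cases hrun : ∃ i ≤ M2, ∀ y, y0 + i * (M1 + 1) ≤ y → y < y0 + i * (M1 + 1) + M1 →
      (halfStab Γ G (fun k => f (0, y + k)) (n + 1)).relIndex
          (halfStab Γ G (fun k => f (0, y + k)) n) ≠ 0
  · obtain ⟨i, -, hi⟩ := hrun
    refine h1 f hf (fun k => y0 + i * (M1 + 1) + k) (fun a b hab _ => by omega)
      fun a b hab hb => ?_
    obtain ⟨d, rfl⟩ := Nat.exists_eq_add_of_lt hab
    clear hab
    have one : ∀ c : ℕ, c < M1 →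
        (halfStab Γ G (fun k => f (0, y0 + i * (M1 + 1) + ((c + 1 : ℕ) : ℤ) + k)) n).relIndex
          (halfStab Γ G (fun k => f (0, y0 + i * (M1 + 1) + (c : ℤ) + k)) n) ≠ 0 := by
      intro c hc
      have h3 := hi (y0 + i * (M1 + 1) + c) (by omega) (by omega)
      rw [← Subgroup.isFiniteRelIndex_iff_relIndex_ne_zero] at h3 ⊢
      refine Subgroup.isFiniteRelIndex_of_le_left _ ?_
        (H := halfStab Γ G (fun k => f (0, y0 + i * (M1 + 1) + (c : ℤ) + k)) (n + 1))
      exact half_mono (by push_cast; omega) (by push_cast; omega)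
    induction d with
    | zero => exact one a (by omega)
    | succ d ih =>
      exact Subgroup.relIndex_ne_zero_trans (one (a + d + 1) (by omega)) (ih (by omega))
  · have hrun' : ∀ i : ℕ, i ≤ M2 → ∃ y : ℤ, y0 + i * (M1 + 1) ≤ y ∧ y < y0 + i * (M1 + 1) + M1 ∧
        ¬ (halfStab Γ G (fun k => f (0, y + k)) (n + 1)).relIndex
          (halfStab Γ G (fun k => f (0, y + k)) n) ≠ 0 := by
      intro i hi
      by_contra hc
      refine hrun ⟨i, hi, fun y h1 h2 => ?_⟩
      by_contra h3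
      exact hc ⟨y, h1, h2, fun hne => hne h3⟩
    have hmul : ∀ i j : ℕ, i < j → (i : ℤ) * (M1 + 1) + (M1 + 1) ≤ j * (M1 + 1) := by
      intro i j hij
      have : (i : ℤ) + 1 ≤ j := by exact_mod_cast hij
      have h4 : ((i : ℤ) + 1) * (M1 + 1) ≤ j * (M1 + 1) :=
        mul_le_mul_of_nonneg_right this (by omega)
      linarith
    refine h2 f hf (fun i => y0 + i * (M1 + 1)) (fun i j hij _ => ?_) fun i j hij hj => ?_
    · have := hmul i j hij
      show y0 + (i : ℤ) * (M1 + 1) < y0 + (j : ℤ) * (M1 + 1)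
      omega
    · have e0 := hmul i j hij
      obtain ⟨y, e1, e2, e3⟩ := hrun' i (by omega)
      have e4 := hmul i (M2 + 1) (by omega)
      have e5 : (0 : ℤ) ≤ i * (M1 + 1) := by positivity
      obtain ⟨z, hz⟩ : ∃ z : G, (Subgroup.zpowers z).relIndex
          (halfStab Γ G (fun k => f (0, y + k)) (n + 1)) ≠ 0 := by
        rcases h y (by omega) (by push_cast at e4 ⊢; omega) with h5 | h5
        · exact h5
        · exact absurd h5 e3
      have hz' : (Subgroup.zpowers z).relIndex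
          (halfStab Γ G (fun k => f (0, y0 + i * (M1 + 1) + k)) (n + 1 + M1)) ≠ 0 := by
        rw [← Subgroup.isFiniteRelIndex_iff_relIndex_ne_zero] at hz ⊢
        exact Subgroup.isFiniteRelIndex_of_le_right _
          (half_mono (f := f) (G := G) (Γ := Γ) (b := y0 + i * (M1 + 1)) (c := y) (m := n + 1 + M1)
            (n := n + 1) e1 (by push_cast; omega))
      exact relIndex_of_cyclic hG hf _ _ _ (by omega) hz'

end Pool.Agent.W8h56.SW
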