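import Pool.Agent.W8h56.SW.Basic

/-!
# Gates of convex sets, and sets of parallel paths
-/

set_option autoImplicit false

namespace Pool.Agent.W8h56.SW

open Set Pool.Agent.W5h69.CR

variable {V : Type*} {Γ : SimpleGraph V}

/-- Gates of convex sets. -/
theorem gate (h : IsMedian Γ) {S : V → Prop} (hS : Cvx Γ S) (hne : ∃ p, S p) (x : V) :
    ∃ p, S p ∧ ∀ q, S q → Γ.dist x p + Γ.dist p q = Γ.dist x q := by
  classical
  have hex : ∃ k, ∃ p, S p ∧ Γ.dist x p = k := by
    obtain ⟨p, hp⟩ := hne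
    exact ⟨_, p, hp, rfl⟩
  obtain ⟨p, hp, hk⟩ := Nat.find_spec hex
  have hmin := fun m => Nat.find_min hex (m := m)
  rw [← hk] at hmin
  refine ⟨p, hp, fun q hq => ?_⟩
  obtain ⟨m, ⟨m1, m2, m3⟩, -⟩ := h.2 x p q
  have hm : S m := hS p q m hp hq m2
  have h1 : ¬ Γ.dist x m < Γ.dist x p := fun hlt => hmin _ hlt ⟨m, hm, rfl⟩
  have h2 : Γ.dist m p = 0 := by omega
  have h3 : m = p := h.1.dist_eq_zero_iff.1 h2
  rw [h3] at m3
  exact m3

/-- The gate map does not increase distances. -/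
theorem gate_dist {S : V → Prop} (h : IsMedian Γ) {x y p q : V} (hp : S p) (hq : S q)
    (hxp : ∀ r, S r → Γ.dist x p + Γ.dist p r = Γ.dist x r)
    (hyq : ∀ r, S r → Γ.dist y q + Γ.dist q r = Γ.dist y r) : Γ.dist p q ≤ Γ.dist x y := by
  have h1 := hxp q hq
  have h2 := hyq p hp
  have h3 := h.1.dist_triangle (u := x) (v := y) (w := q)
  have h4 := h.1.dist_triangle (u := y) (v := x) (w := p)
  have c1 : Γ.dist q p = Γ.dist p q := SimpleGraph.dist_comm
  have c2 : Γ.dist y x = Γ.dist x y := SimpleGraph.dist_comm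
  omega

/-- An edge crossing a wall which crosses a convex set is mapped by the gate map to an edge crossing
the wall. -/
theorem gate_edge (h : IsMedian Γ) {S : V → Prop} {a b x y p q : V} (ab : Γ.Adj a b)
    (xy : Γ.Adj x y) (hx : ¬ Γ.dist x b < Γ.dist x a) (hy : Γ.dist y b < Γ.dist y a)
    (hp : S p) (hq : S q)
    (hxp : ∀ r, S r → Γ.dist x p + Γ.dist p r = Γ.dist x r)
    (hyq : ∀ r, S r → Γ.dist y q + Γ.dist q r = Γ.dist y r)
    (h1 : ∃ r, S r ∧ Γ.dist r b < Γ.dist r a) (h2 : ∃ r, S r ∧ ¬ Γ.dist r b < Γ.dist r a) :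
    Γ.Adj p q ∧ Γ.dist q b < Γ.dist q a ∧ ¬ Γ.dist p b < Γ.dist p a := by
  obtain ⟨r, r1, r2⟩ := h1
  obtain ⟨r', r3, r4⟩ := h2
  have s1 := step h ab x
  have s2 := step h ab r'
  have hq' : Γ.dist q b < Γ.dist q a := hs_convex h ab y r q hy r2 (hyq r r1)
  have hp' : Γ.dist p a < Γ.dist p b :=
    hs_convex h ab.symm x r' p (by omega) (by omega) (hxp r' r3)
  have hpq : p ≠ q := by
    rintro rfl
    omega
  have h5 := gate_dist h hp hq hxp hyq
  rw [d1 xy] at h5
  have h6 : Γ.dist p q ≠ 0 := fun h0 => hpq (h.1.dist_eq_zero_iff.1 h0)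
  exact ⟨SimpleGraph.dist_eq_one_iff_adj.1 (by omega), hq', by omega⟩

/-- `u` is a path of `n + 1` edges parallel to the path `c`: its edges cross the same walls, in the
same directions. -/
def Parl (Γ : SimpleGraph V) (n : ℕ) (c u : ℕ → V) : Prop :=
  ∀ i ≤ n, Γ.Adj (u i) (u (i + 1)) ∧ side Γ (u i) (u (i + 1)) = side Γ (c i) (c (i + 1))

/-- The set of the first vertices of the paths parallel to `c`. -/
def Par (Γ : SimpleGraph V) (n : ℕ) (c : ℕ → V) (v : V) : Prop :=
  ∃ u : ℕ → V, u 0 = v ∧ Parl Γ n c u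

theorem cross_step (h : IsMedian Γ) {a a' b b' m : V} (aa : Γ.Adj a a') (bb : Γ.Adj b b')
    (he : side Γ a a' = side Γ b b') (hm : Γ.dist a m + Γ.dist m b = Γ.dist a b) :
    ∃ m', Γ.Adj m m' ∧ side Γ m m' = side Γ a a' ∧
      Γ.dist a' m' + Γ.dist m' b' = Γ.dist a' b' := by
  have ha : a ∈ side Γ a a' := by
    show Γ.dist a a < Γ.dist a a'
    rw [SimpleGraph.dist_self, d1 aa]
    norm_num
  have hb : b ∈ side Γ b b' := by
    show Γ.dist b b < Γ.dist b b'
    rw [SimpleGraph.dist_self, d1 bb]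
    norm_num
  have ha' : a' ∉ side Γ a a' := by
    show ¬ Γ.dist a' a < Γ.dist a' a'
    rw [SimpleGraph.dist_self]
    omega
  have hb' : b' ∉ side Γ b b' := by
    show ¬ Γ.dist b' b < Γ.dist b' b'
    rw [SimpleGraph.dist_self]
    omega
  have hba : b ∈ side Γ a a' := by rw [he]; exact hb
  have hab' : a' ∉ side Γ b b' := by rw [← he]; exact ha'
  have hb'a : b' ∉ side Γ a a' := by rw [he]; exact hb'
  have hma : m ∈ side Γ a a' := hs_convex h aa.symm a b m ha hba hm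
  have hmb : m ∈ side Γ b b' := by rw [← he]; exact hma
  obtain ⟨m', ⟨m1, m2, m3⟩, -⟩ := h.2 m a' b'
  change Γ.dist b a < Γ.dist b a' at hba
  change ¬ Γ.dist a' b < Γ.dist a' b' at hab'
  change ¬ Γ.dist b' a < Γ.dist b' a' at hb'a
  change Γ.dist m a < Γ.dist m a' at hma
  change Γ.dist m b < Γ.dist m b' at hmb
  have s1 := step h aa m
  have s2 := step h bb m
  have s3 := step h bb a'
  have s4 := step h aa b
  have s5 := step h aa b'
  have c1 : Γ.dist b a = Γ.dist a b := SimpleGraph.dist_comm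
  have c2 : Γ.dist b a' = Γ.dist a' b := SimpleGraph.dist_comm
  have c3 : Γ.dist a m = Γ.dist m a := SimpleGraph.dist_comm
  have c4 : Γ.dist b' a' = Γ.dist a' b' := SimpleGraph.dist_comm
  have c5 : Γ.dist m' a' = Γ.dist a' m' := SimpleGraph.dist_comm
  have hmm : Γ.dist m m' = 1 := by omega
  have hadj : Γ.Adj m m' := SimpleGraph.dist_eq_one_iff_adj.1 hmm
  have hm' : Γ.dist m' a' < Γ.dist m' a :=
    hs_convex h aa a' b' m' (by
      show Γ.dist a' a' < Γ.dist a' a
      rw [SimpleGraph.dist_self, d1 aa.symm]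
      norm_num)
      (by
      show Γ.dist b' a' < Γ.dist b' a
      omega) m2
  refine ⟨m', hadj, ?_, m2⟩
  ext w
  exact hs_edge h aa.symm _ m m' hadj rfl hma hm' w

theorem Par.cvx (h : IsMedian Γ) (n : ℕ) (c : ℕ → V) : Cvx Γ (Par Γ n c) := by
  rintro x y m ⟨a, rfl, ha⟩ ⟨b, rfl, hb⟩ hm
  have key : ∀ k : ℕ, k ≤ n + 1 → ∃ u : ℕ → V, u 0 = m ∧
      (∀ i < k, Γ.Adj (u i) (u (i + 1)) ∧ side Γ (u i) (u (i + 1)) = side Γ (c i) (c (i + 1))) ∧
      Γ.dist (a k) (u k) + Γ.dist (u k) (b k) = Γ.dist (a k) (b k) := by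
    intro k
    induction k with
    | zero => intro _; exact ⟨fun _ => m, rfl, fun i hi => absurd hi (by omega), hm⟩
    | succ k ih =>
      intro hk
      obtain ⟨u, u0, u1, u2⟩ := ih (by omega)
      obtain ⟨m', m1, m2, m3⟩ := cross_step h (ha k (by omega)).1 (hb k (by omega)).1
        ((ha k (by omega)).2.trans (hb k (by omega)).2.symm) u2
      refine ⟨fun i => if i ≤ k then u i else m', by simpa using u0, fun i hi => ?_, ?_⟩
      · rcases Nat.lt_or_ge i k with h1 | h1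
        · simp only [if_pos (show i ≤ k by omega), if_pos (show i + 1 ≤ k by omega)]
          exact u1 i h1
        · obtain rfl : i = k := by omega
          simp only [le_refl, if_true, if_neg (show ¬ i + 1 ≤ i by omega)]
          exact ⟨m1, m2.trans (ha i (by omega)).2⟩
      · simp only [if_neg (show ¬ k + 1 ≤ k by omega)]
        exact m3
  obtain ⟨u, u0, u1, -⟩ := key (n + 1) le_rfl
  exact ⟨u, u0, fun i hi => u1 i (by omega)⟩

variable {G : Type*} [Group G] [MulAction G V] {K : Set V}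

theorem Parl.smul (hG : Geo Γ G K) {n : ℕ} {c c' u : ℕ → V} (g : G)
    (hg : ∀ i ≤ n, side Γ (g • c i) (g • c (i + 1)) = side Γ (c' i) (c' (i + 1)))
    (hu : Parl Γ n c u) : Parl Γ n c' (fun i => g • u i) := fun i hi =>
  ⟨hG.adj g _ _ (hu i hi).1, (side_congr hG g (hu i hi).2).trans (hg i hi)⟩

theorem Par.smul (hG : Geo Γ G K) {n : ℕ} {c c' : ℕ → V} (g : G)
    (hg : ∀ i ≤ n, side Γ (g • c i) (g • c (i + 1)) = side Γ (c' i) (c' (i + 1)))
    {v : V} (hv : Par Γ n c v) : Par Γ n c' (g • v) := by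
  obtain ⟨u, rfl, hu⟩ := hv
  exact ⟨_, rfl, hu.smul hG g hg⟩

theorem Parl.len (hG : Geo Γ G K) {n : ℕ} {c u : ℕ → V} (hu : Parl Γ n c u) :
    ∀ i ≤ n + 1, Γ.dist (u 0) (u i) ≤ i := by
  intro i
  induction i with
  | zero => intro _; rw [SimpleGraph.dist_self]
  | succ i ih =>
    intro hi
    have h1 := ih (by omega)
    have h2 := d1 (hu i (by omega)).1
    have h3 := hG.med.1.dist_triangle (u := u 0) (v := u i) (w := u (i + 1))
    omega

/-- The common stabiliser of the half-spaces of the first `n + 1` edges of the path `c`. -/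
def halfStab (Γ : SimpleGraph V) (G : Type*) [Group G] [MulAction G V] (c : ℕ → V) (n : ℕ) :
    Subgroup G where
  carrier := {g | ∀ j ≤ n, ∀ v : V, v ∈ side Γ (c j) (c (j + 1)) ↔ g • v ∈ side Γ (c j) (c (j + 1))}
  one_mem' := fun j _ v => by rw [one_smul]
  mul_mem' := fun {g h} hg hh j hj v => by
    rw [mul_smul]
    exact (hh j hj v).trans (hg j hj _)
  inv_mem' := fun {g} hg j hj v => by
    have h := hg j hj (g⁻¹ • v)
    rw [smul_inv_smul] at h
    exact h.symm

theorem mem_half (hG : Geo Γ G K) {c : ℕ → V} {n : ℕ} {g : G} : g ∈ halfStab Γ G c n ↔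
    ∀ j ≤ n, side Γ (g • c j) (g • c (j + 1)) = side Γ (c j) (c (j + 1)) := by
  refine forall₂_congr fun j _ => ⟨fun h => ?_, fun h v => ?_⟩
  · ext x
    have h1 := side_smul hG g (c j) (c (j + 1)) (g⁻¹ • x)
    have h2 := h (g⁻¹ • x)
    rw [smul_inv_smul] at h1 h2
    rw [h1, h2]
  · have h1 := side_smul hG g (c j) (c (j + 1)) v
    rw [h] at h1
    exact h1.symm

/-- The common stabiliser has finitely many orbits on the parallel paths. -/
theorem orbits (hG : Geo Γ G K) (n : ℕ) (c : ℕ → V) : ∃ Q : Set V, Q.Finite ∧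
    ∀ p, Par Γ n c p → ∃ h ∈ halfStab Γ G c n, ∃ q ∈ Q, p = h • q := by
  classical
  have : Nonempty V := hG.med.1.nonempty
  choose γ hγ using fun v : V => hG.cov v
  choose! u hu0 hu using fun (p : V) (hp : Par Γ n c p) => hp
  have hB : (⋃ v ∈ K, {w | Γ.dist v w ≤ n + 1}).Finite :=
    hG.fin.biUnion fun v _ => hG.ball (n + 1) v
  set B : Set V := ⋃ v ∈ K, {w | Γ.dist v w ≤ n + 1} with hBdef
  have hP : (Set.univ.pi fun _ : Fin (n + 2) => B).Finite := Set.Finite.pi fun _ => hB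
  let D : V → (Fin (n + 2) → V) := fun p i => γ p • u p i
  have hD : ∀ p, Par Γ n c p → D p ∈ (Set.univ.pi fun _ : Fin (n + 2) => B) := by
    rintro p hp i -
    refine Set.mem_biUnion (hγ p) ?_
    show Γ.dist (γ p • p) (γ p • u p i) ≤ n + 1
    rw [hG.dist]
    have h1 := (hu p hp).len hG i (by omega)
    rw [hu0 p hp] at h1
    have := i.2
    omega
  -- representatives
  have hrep : ∀ d ∈ D '' {p | Par Γ n c p}, ∃ p, Par Γ n c p ∧ D p = d := by
    rintro d ⟨p, hp, rfl⟩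
    exact ⟨p, hp, rfl⟩
  choose! rep hrep1 hrep2 using hrep
  refine ⟨rep '' (D '' {p | Par Γ n c p}), ?_, fun p hp => ?_⟩
  · refine Set.Finite.image _ (hP.subset ?_)
    rintro _ ⟨p, hp, rfl⟩
    exact hD p hp
  · have hd : D p ∈ D '' {p | Par Γ n c p} := ⟨p, hp, rfl⟩
    set q := rep (D p) with hq
    have hq1 : Par Γ n c q := hrep1 _ hd
    have hq2 : D q = D p := hrep2 _ hd
    have hmap : ∀ i ≤ n + 1, ((γ p)⁻¹ * γ q) • u q i = u p i := by
      intro i hi
      have h1 := congrFun hq2 ⟨i, by omega⟩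
      simp only [D] at h1
      rw [mul_smul, h1, inv_smul_smul]
    refine ⟨(γ p)⁻¹ * γ q, ?_, q, ⟨_, hd, rfl⟩, ?_⟩
    · rw [mem_half hG]
      intro j hj
      have h1 := (hu q hq1 j hj).2
      have h2 := (hu p hp j hj).2
      have h3 := side_congr hG ((γ p)⁻¹ * γ q) h1
      rw [hmap j (by omega), hmap (j + 1) (by omega), h2] at h3
      exact h3.symm
    · have h1 := hmap 0 (by omega)
      rw [hu0 q hq1, hu0 p hp] at h1
      exact h1.symm

/-- If the common stabiliser of one family of half-spaces is virtually contained in another one, then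
the set of parallel paths is in a neighbourhood of the other one. -/
theorem near (hG : Geo Γ G K) (n : ℕ) (c c' : ℕ → V) (hc' : ∀ i ≤ n, Γ.Adj (c' i) (c' (i + 1)))
    (hfin : (halfStab Γ G c' n).relIndex (halfStab Γ G c n) ≠ 0) :
    ∃ R : ℕ, ∀ p, Par Γ n c p → ∃ q, Par Γ n c' q ∧ Γ.dist p q ≤ R := by
  classical
  obtain ⟨Q, hQ, hQ'⟩ := orbits hG n c
  set H := halfStab Γ G c n with hH
  set L := (halfStab Γ G c' n).subgroupOf H with hL
  have hLf : L.FiniteIndex := ⟨hfin⟩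
  have hquot : Finite (H ⧸ L) := Subgroup.finite_quotient_of_finiteIndex
  -- the finite set of distances
  have hfin2 : ((fun t : (H ⧸ L) × V => Γ.dist (((Quotient.out t.1 : H) : G)⁻¹ • t.2) (c' 0)) ''
      (Set.univ ×ˢ Q)).Finite := (Set.finite_univ.prod hQ).image _
  obtain ⟨R, hR⟩ := hfin2.bddAbove
  refine ⟨R, fun p hp => ?_⟩
  obtain ⟨h, hh, q, hq, rfl⟩ := hQ' p hp
  -- decompose `h`
  set t : H ⧸ L := QuotientGroup.mk (s := L) ((⟨h, hh⟩ : H)⁻¹) with ht
  have h1 : ((Quotient.out t : H))⁻¹ * (⟨h, hh⟩ : H)⁻¹ ∈ L := by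
    rw [← QuotientGroup.eq]
    exact Quotient.out_eq _
  have h2 := L.inv_mem h1
  rw [mul_inv_rev, inv_inv, inv_inv] at h2
  have h3 : h * ((Quotient.out t : H) : G) ∈ halfStab Γ G c' n := by
    exact Subgroup.mem_subgroupOf.1 h2
  set l := h * ((Quotient.out t : H) : G) with hl
  refine ⟨l • c' 0, ?_, ?_⟩
  · exact Par.smul hG l ((mem_half hG).1 h3) ⟨c', rfl, fun i hi => ⟨hc' i hi, rfl⟩⟩
  · have h4 : h • q = l • (((Quotient.out t : H) : G)⁻¹ • q) := by
      rw [hl, mul_smul, smul_inv_smul]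
    rw [h4, hG.dist]
    exact hR ⟨(t, q), ⟨Set.mem_univ _, hq⟩, rfl⟩

end Pool.Agent.W8h56.SW
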