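import Pool.Agent.W8h56.SW.Gate
import Pool.Agent.W8h56.SW.Cyc

/-!
# Elements which skewer two crossing walls, one of them coarsely invariant
-/

set_option autoImplicit false

namespace Pool.Agent.W8h56.SW

open Set Pool.Agent.W5h69.CR

variable {V : Type*} {Γ : SimpleGraph V} {G : Type*} [Group G] [MulAction G V] {K : Set V}

/-- Let `S` be a convex set of vertices on one side of the wall of `tt'` all of which are adjacent
to the wall, and let `θ` map `S` into a neighbourhood of `S`.  If `θ⁻¹` skewers this wall and `θ`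
skewers a wall which crosses `S` deeply, then there is `ℤ²`. -/
theorem regular (hG : Geo Γ G K) {S : V → Prop} (hS : Cvx Γ S) (θ : G) {R : ℕ}
    (hR : ∀ p, S p → ∃ q, S q ∧ Γ.dist (θ • p) q ≤ R) {t t' : V} (tt : Γ.Adj t t')
    (hT : ∀ p, S p → ∃ q, Γ.Adj p q ∧ ¬ Γ.dist p t' < Γ.dist p t ∧ Γ.dist q t' < Γ.dist q t)
    (hTθ : ∀ v, Γ.dist v t' < Γ.dist v t → Γ.dist (θ⁻¹ • v) t' < Γ.dist (θ⁻¹ • v) t)
    (v0 : V) (hv0 : Γ.dist v0 t' < Γ.dist v0 t) (hv0' : ¬ Γ.dist (θ • v0) t' < Γ.dist (θ • v0) t)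
    {a b : V} (ab : Γ.Adj a b)
    (hW : ∀ v, Γ.dist v b < Γ.dist v a → Γ.dist (θ • v) b < Γ.dist (θ • v) a)
    (w0 : V) (hw0 : Γ.dist w0 b < Γ.dist w0 a) (hw0' : ¬ Γ.dist (θ⁻¹ • w0) b < Γ.dist (θ⁻¹ • w0) a)
    (hd1 : ∀ r : ℕ, ∃ p, S p ∧ ∀ x, ¬ Γ.dist x b < Γ.dist x a → r < Γ.dist p x)
    (hd2 : ∀ r : ℕ, ∃ p, S p ∧ ∀ x, Γ.dist x b < Γ.dist x a → r < Γ.dist p x) :
    ∃ φ : Multiplicative (ℤ × ℤ) →* G, Function.Injective φ := by
  classical
  -- the walls `θ ^ k w` cross `S` deeply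
  set A : ℕ → V := fun k => θ ^ k • a with hA
  set B : ℕ → V := fun k => θ ^ k • b with hB
  have hAB : ∀ k, Γ.Adj (A k) (B k) := fun k => hG.adj _ _ _ ab
  have hAs : ∀ k, A (k + 1) = θ • A k := fun k => by
    show θ ^ (k + 1) • a = θ • θ ^ k • a
    rw [pow_succ', mul_smul]
  have hBs : ∀ k, B (k + 1) = θ • B k := fun k => by
    show θ ^ (k + 1) • b = θ • θ ^ k • b
    rw [pow_succ', mul_smul]
  have hshift : ∀ (k : ℕ) (x : V), Γ.dist (θ • x) (B (k + 1)) < Γ.dist (θ • x) (A (k + 1)) ↔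
      Γ.dist x (B k) < Γ.dist x (A k) := by
    intro k x
    rw [hAs, hBs, hG.dist, hG.dist]
  have deep : ∀ k : ℕ, (∀ r : ℕ, ∃ p, S p ∧ ∀ x, ¬ Γ.dist x (B k) < Γ.dist x (A k) →
      r < Γ.dist p x) ∧
      (∀ r : ℕ, ∃ p, S p ∧ ∀ x, Γ.dist x (B k) < Γ.dist x (A k) → r < Γ.dist p x) := by
    intro k
    induction k with
    | zero =>
      rw [show A 0 = a by simp [hA], show B 0 = b by simp [hB]]
      exact ⟨hd1, hd2⟩
    | succ k ih =>
      refine ⟨fun r => ?_, fun r => ?_⟩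
      · obtain ⟨p, hp, hp'⟩ := ih.1 (r + R)
        obtain ⟨q, hq, hq'⟩ := hR p hp
        refine ⟨q, hq, fun x hx => ?_⟩
        have h1 := hp' (θ⁻¹ • x) (by
          rw [← hshift, smul_inv_smul]
          exact hx)
        rw [← hG.dist θ, smul_inv_smul] at h1
        have h2 := hG.med.1.dist_triangle (u := θ • p) (v := q) (w := x)
        omega
      · obtain ⟨p, hp, hp'⟩ := ih.2 (r + R)
        obtain ⟨q, hq, hq'⟩ := hR p hp
        refine ⟨q, hq, fun x hx => ?_⟩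
        have h1 := hp' (θ⁻¹ • x) (by
          rw [← hshift, smul_inv_smul]
          exact hx)
        rw [← hG.dist θ, smul_inv_smul] at h1
        have h2 := hG.med.1.dist_triangle (u := θ • p) (v := q) (w := x)
        omega
  have cross1 : ∀ k, ∃ r, S r ∧ Γ.dist r (B k) < Γ.dist r (A k) := by
    intro k
    obtain ⟨p, hp, hp'⟩ := (deep k).1 0
    refine ⟨p, hp, ?_⟩
    by_contra hc
    have := hp' p hc
    rw [SimpleGraph.dist_self] at this
    omega
  have cross2 : ∀ k, ∃ r, S r ∧ ¬ Γ.dist r (B k) < Γ.dist r (A k) := by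
    intro k
    obtain ⟨p, hp, hp'⟩ := (deep k).2 0
    refine ⟨p, hp, fun hc => ?_⟩
    have := hp' p hc
    rw [SimpleGraph.dist_self] at this
    omega
  have hne : ∃ p, S p := by
    obtain ⟨p, hp, -⟩ := cross1 0
    exact ⟨p, hp⟩
  choose π hπ1 hπ2 using gate hG.med hS hne
  -- the sequence of edges
  let F : ℕ → V × V := fun k => Nat.rec (π a, π b) (fun _ z => (π (θ • z.1), π (θ • z.2))) k
  set α : ℕ → V := fun k => (F k).1 with hα
  set β : ℕ → V := fun k => (F k).2 with hβ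
  have hα0 : α 0 = π a := rfl
  have hβ0 : β 0 = π b := rfl
  have hαs : ∀ k, α (k + 1) = π (θ • α k) := fun k => rfl
  have hβs : ∀ k, β (k + 1) = π (θ • β k) := fun k => rfl
  have hαS : ∀ k, S (α k) := by
    intro k
    cases k with
    | zero => exact hπ1 a
    | succ k => exact hπ1 _
  have hedge : ∀ k, Γ.Adj (α k) (β k) ∧ Γ.dist (β k) (B k) < Γ.dist (β k) (A k) ∧
      ¬ Γ.dist (α k) (B k) < Γ.dist (α k) (A k) := by
    intro k
    induction k with
    | zero =>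
      refine gate_edge hG.med (hAB 0) ab (x := a) (y := b) ?_ ?_ (hπ1 a) (hπ1 b) (hπ2 a) (hπ2 b)
        (cross1 0) (cross2 0)
      · simp [hA, hB]
      · simp only [hA, hB, pow_zero, one_smul]
        rw [SimpleGraph.dist_self, d1 ab.symm]
        norm_num
    | succ k ih =>
      refine gate_edge hG.med (hAB (k + 1)) (hG.adj θ _ _ ih.1) (x := θ • α k) (y := θ • β k)
        ?_ ?_ (hπ1 _) (hπ1 _) (hπ2 _) (hπ2 _) (cross1 (k + 1)) (cross2 (k + 1))
      · rw [hshift]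
        exact ih.2.2
      · rw [hshift]
        exact ih.2.1
  have hstep : ∀ k, Γ.dist (α k) (α (k + 1)) ≤ Γ.dist (α 0) (α 1) := by
    intro k
    induction k with
    | zero => exact le_rfl
    | succ k ih =>
      have h1 : Γ.dist (α (k + 1)) (α (k + 1 + 1)) ≤ Γ.dist (θ • α k) (θ • α (k + 1)) :=
        gate_dist hG.med (hπ1 (θ • α k)) (hπ1 (θ • α (k + 1))) (hπ2 _) (hπ2 _)
      rw [hG.dist] at h1
      omega
  have hdis : ∀ k, Γ.dist (α k) (θ • α k) ≤ Γ.dist (α 0) (α 1) + R := by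
    intro k
    have h1 := hstep k
    obtain ⟨q, hq, hq'⟩ := hR (α k) (hαS k)
    have h2 : Γ.dist (θ • α k) (α (k + 1)) + Γ.dist (α (k + 1)) q = Γ.dist (θ • α k) q :=
      hπ2 (θ • α k) q hq
    have h3 := hG.med.1.dist_triangle (u := α k) (v := α (k + 1)) (w := θ • α k)
    have h4 : Γ.dist (α (k + 1)) (θ • α k) = Γ.dist (θ • α k) (α (k + 1)) :=
      SimpleGraph.dist_comm
    omega
  choose τ hτ1 hτ2 hτ3 using fun k => hT (α k) (hαS k)
  -- pigeonhole
  have hBf : (⋃ v ∈ K, {w | Γ.dist v w ≤ 1}).Finite := hG.fin.biUnion fun v _ => hG.ball 1 v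
  have hF := hG.move (Γ.dist (α 0) (α 1) + R)
  have hfin := hG.fin.prod (hBf.prod (hBf.prod hF))
  obtain ⟨M, hM⟩ := pigeon 1 hfin
  choose γ hγ using fun v : V => hG.cov v
  let D : ℕ → V × V × V × G := fun i => (γ (α i) • α i, γ (α i) • β i, γ (α i) • τ i,
    γ (α i) * θ * (γ (α i))⁻¹)
  obtain ⟨μ, hμ1, hμ2, hμ3⟩ := hM D (fun i _ => by
      refine ⟨hγ _, Set.mem_biUnion (hγ (α i)) ?_, Set.mem_biUnion (hγ (α i)) ?_,
        ⟨_, hγ (α i), ?_⟩⟩
      · show Γ.dist (γ (α i) • α i) (γ (α i) • β i) ≤ 1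
        rw [hG.dist, d1 (hedge i).1]
      · show Γ.dist (γ (α i) • α i) (γ (α i) • τ i) ≤ 1
        rw [hG.dist, d1 (hτ1 i)]
      · rw [mul_smul, mul_smul, inv_smul_smul, hG.dist]
        exact hdis i)
  obtain ⟨i, hi⟩ : ∃ i, μ 0 = i := ⟨_, rfl⟩
  obtain ⟨j, hj⟩ : ∃ j, μ 1 = j := ⟨_, rfl⟩
  have hlt : i < j := by rw [← hi, ← hj]; exact hμ1 0 1 (by omega) le_rfl
  have hij : D i = D j := by rw [← hi, ← hj]; exact (hμ3 1 le_rfl).symm
  set p := γ (α i) with hp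
  set q := γ (α j) with hq
  obtain ⟨e1, e2, e3, e4⟩ : p • α i = q • α j ∧ p • β i = q • β j ∧ p • τ i = q • τ j ∧
      p * θ * p⁻¹ = q * θ * q⁻¹ := by
    simpa only [D, Prod.mk.injEq] using hij
  set k := q⁻¹ * p with hk
  have k1 : k • α i = α j := by rw [hk, mul_smul, e1, inv_smul_smul]
  have k2 : k • β i = β j := by rw [hk, mul_smul, e2, inv_smul_smul]
  have k3 : k • τ i = τ j := by rw [hk, mul_smul, e3, inv_smul_smul]
  have k4 : θ * k = k * θ := by
    calc θ * (q⁻¹ * p) = q⁻¹ * (q * θ * q⁻¹) * p := by group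
      _ = q⁻¹ * (p * θ * p⁻¹) * p := by rw [e4]
      _ = (q⁻¹ * p) * θ := by group
  -- the half-spaces in terms of the edges
  have hTe : ∀ l (v : V), Γ.dist v (τ l) < Γ.dist v (α l) ↔ Γ.dist v t' < Γ.dist v t := by
    intro l v
    have s1 := step hG.med tt (α l)
    have := hτ2 l
    exact hs_edge hG.med tt _ (τ l) (α l) (hτ1 l).symm rfl (hτ3 l) (by omega) v
  have hWe : ∀ l (v : V), Γ.dist v (β l) < Γ.dist v (α l) ↔ Γ.dist v (B l) < Γ.dist v (A l) := by
    intro l v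
    have s1 := step hG.med (hAB l) (α l)
    have := (hedge l).2.2
    exact hs_edge hG.med (hAB l) _ (β l) (α l) (hedge l).1.symm rfl (hedge l).2.1 (by omega) v
  -- the half-spaces `θ ^ l W` decrease
  have hdec : ∀ (l m : ℕ) (v : V), Γ.dist v (B (l + m)) < Γ.dist v (A (l + m)) →
      Γ.dist v (B l) < Γ.dist v (A l) := by
    have one : ∀ (l : ℕ) (v : V), Γ.dist v (B (l + 1)) < Γ.dist v (A (l + 1)) →
        Γ.dist v (B l) < Γ.dist v (A l) := by
      intro l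
      induction l with
      | zero =>
        intro v hv
        have h1 := (hshift 0 (θ⁻¹ • v)).1 (by rw [smul_inv_smul]; exact hv)
        simp only [hA, hB, pow_zero, one_smul] at h1 ⊢
        have h2 := hW _ h1
        rwa [smul_inv_smul] at h2
      | succ l ih =>
        intro v hv
        have h1 := (hshift (l + 1) (θ⁻¹ • v)).1 (by rw [smul_inv_smul]; exact hv)
        have h2 := (hshift l (θ⁻¹ • v)).2 (ih _ h1)
        rwa [smul_inv_smul] at h2
    intro l m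
    induction m with
    | zero => intro v hv; exact hv
    | succ m ih => intro v hv; exact ih v (one (l + m) v hv)
  -- a point of `θ ^ i W` which is not in `θ ^ (i + 1) W`
  have hpt : ∀ l : ℕ, Γ.dist (θ ^ l • w0) (B l) < Γ.dist (θ ^ l • w0) (A l) ∧
      ¬ Γ.dist (θ ^ l • w0) (B (l + 1)) < Γ.dist (θ ^ l • w0) (A (l + 1)) := by
    intro l
    constructor
    · show Γ.dist (θ ^ l • w0) (θ ^ l • b) < Γ.dist (θ ^ l • w0) (θ ^ l • a)
      rw [hG.dist, hG.dist]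
      exact hw0
    · show ¬ Γ.dist (θ ^ l • w0) (θ ^ (l + 1) • b) < Γ.dist (θ ^ l • w0) (θ ^ (l + 1) • a)
      rw [pow_succ, mul_smul, mul_smul, hG.dist, hG.dist]
      intro h
      apply hw0'
      rw [← hG.dist θ, ← hG.dist θ (θ⁻¹ • w0) a, smul_inv_smul]
      exact h
  refine zcrit k θ⁻¹ ?_ (fun v => Γ.dist v (B i) < Γ.dist v (A i))
    (fun v => Γ.dist v t' < Γ.dist v t) hTθ v0 hv0 (by rw [inv_inv]; exact hv0') (fun v => ?_)
    (fun v hv => ?_) (θ ^ i • w0) (hpt i).1 ?_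
  · calc k * θ⁻¹ = θ⁻¹ * (θ * k) * θ⁻¹ := by group
      _ = θ⁻¹ * (k * θ) * θ⁻¹ := by rw [k4]
      _ = θ⁻¹ * k := by group
  · show Γ.dist v t' < Γ.dist v t ↔ Γ.dist (k • v) t' < Γ.dist (k • v) t
    rw [← hTe i, ← hTe j, ← k1, ← k3, hG.dist, hG.dist]
  · show Γ.dist (k • v) (B i) < Γ.dist (k • v) (A i)
    obtain ⟨m, hm⟩ := Nat.exists_eq_add_of_lt hlt
    have h1 : Γ.dist (k • v) (B j) < Γ.dist (k • v) (A j) := by
      rw [← hWe j, ← k1, ← k2, hG.dist, hG.dist, hWe i]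
      exact hv
    rw [show j = i + (m + 1) by omega] at h1
    exact hdec i (m + 1) _ h1
  · intro h
    have h' : Γ.dist (k⁻¹ • θ ^ i • w0) (B i) < Γ.dist (k⁻¹ • θ ^ i • w0) (A i) := h
    rw [← hWe i, ← hG.dist k, ← hG.dist k (k⁻¹ • _) (α i), smul_inv_smul, k1, k2, hWe j] at h'
    obtain ⟨m, hm⟩ := Nat.exists_eq_add_of_lt hlt
    rw [show j = i + 1 + m by omega] at h'
    exact (hpt i).2 (hdec (i + 1) m _ h')

end Pool.Agent.W8h56.SW
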