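import Pool.Agent.W8h56.SW.Reg

/-!
# Rows of flats whose common stabilisers are virtually contained in each other
-/

set_option autoImplicit false

namespace Pool.Agent.W8h56.SW

open Set Pool.Agent.W5h69.CR

variable {V : Type*} {Γ : SimpleGraph V} {G : Type*} [Group G] [MulAction G V] {K : Set V}

theorem half_flat (h : IsMedian Γ) {f : ℤ × ℤ → V} (hf : IsFlat Γ f) (x x' y : ℤ) (n : ℕ) :
    halfStab Γ G (fun k => f (x, y + k)) n = halfStab Γ G (fun k => f (x', y + k)) n := by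
  ext g
  refine forall₂_congr fun j _ => forall_congr' fun v => ?_
  have h1 := side_flat h hf x x' (y + j)
  show (v ∈ side Γ (f (x, y + (j : ℕ))) (f (x, y + ((j + 1 : ℕ) : ℤ))) ↔
    g • v ∈ side Γ (f (x, y + (j : ℕ))) (f (x, y + ((j + 1 : ℕ) : ℤ)))) ↔
    (v ∈ side Γ (f (x', y + (j : ℕ))) (f (x', y + ((j + 1 : ℕ) : ℤ))) ↔
    g • v ∈ side Γ (f (x', y + (j : ℕ))) (f (x', y + ((j + 1 : ℕ) : ℤ))))
  push_cast
  rw [← add_assoc, h1]

/-- **Rows with virtually nested common stabilisers.** -/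
theorem main_rows (hG : Geo Γ G K) (n : ℕ) :
    ∃ M : ℕ, ∀ f : ℤ × ℤ → V, IsFlat Γ f → ∀ y : ℕ → ℤ, (∀ i j, i < j → j ≤ M → y i < y j) →
      (∀ i j, i < j → j ≤ M → (halfStab Γ G (fun k => f (0, y j + k)) n).relIndex
        (halfStab Γ G (fun k => f (0, y i + k)) n) ≠ 0) →
      ∃ φ : Multiplicative (ℤ × ℤ) →* G, Function.Injective φ := by
  classical
  obtain ⟨E, hE⟩ := hG.nested
  have hB : (⋃ v ∈ K, {w | Γ.dist v w ≤ n + 2}).Finite :=
    hG.fin.biUnion fun v _ => hG.ball (n + 2) v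
  set B : Set V := ⋃ v ∈ K, {w | Γ.dist v w ≤ n + 2} with hBdef
  have hP : (Set.univ.pi fun _ : Fin (n + 2) × Fin 2 => B).Finite := Set.Finite.pi fun _ => hB
  obtain ⟨M, hM⟩ := pigeon E hP
  refine ⟨M, fun f hf y hy hrel => ?_⟩
  have hy0 : ∀ i, i ≤ M → y 0 ≤ y i := fun i hi => by
    rcases Nat.eq_zero_or_pos i with rfl | h
    · exact le_rfl
    · exact (hy 0 i h hi).le
  have hyM : ∀ i, i ≤ M → y i ≤ y M := fun i hi => by
    rcases Nat.lt_or_ge i M with h | h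
    · exact (hy i M h le_rfl).le
    · rw [show i = M by omega]
  -- the horizontal translation
  obtain ⟨a₁, ha₁⟩ := pattern hG ((y M - y 0).toNat + n + 1)
  obtain ⟨x1, x2, -, hx, -, hnest, s, hs⟩ := ha₁ f hf 0 (y 0)
  have h0M := hy0 M le_rfl
  have hs' : ∀ r, y 0 ≤ r → r ≤ y M + n + 1 → s • f (x1, r) = f (x2, r) ∧
      s • f (x1 + 1, r) = f (x2 + 1, r) := by
    intro r h1 h2
    have e1 := hs x1 r le_rfl (by omega) h1 (by push_cast; omega)
    have e2 := hs (x1 + 1) r (by omega) (by push_cast; omega) h1 (by push_cast; omega)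
    rw [show x1 + (x2 - x1) = x2 by ring] at e1
    rw [show x1 + 1 + (x2 - x1) = x2 + 1 by ring] at e2
    exact ⟨e1, e2⟩
  -- two rows with the same pattern
  choose γ' hγ' using fun v : V => hG.cov v
  let D : ℕ → (Fin (n + 2) × Fin 2 → V) := fun m k => γ' (f (x1, y m)) • f (x1 + k.2, y m + k.1)
  obtain ⟨μ, hμ1, hμ2, hμ3⟩ := hM D (fun m hm => by
      rintro ⟨k, ε⟩ -
      refine Set.mem_biUnion (hγ' (f (x1, y m))) ?_
      show Γ.dist _ _ ≤ n + 2
      rw [hG.dist]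
      have := hf (x1, y m) (x1 + ε, y m + k)
      simp only at this
      rw [abs_of_nonpos (by omega), abs_of_nonpos (by omega)] at this
      have hk := k.2
      have hε := ε.2
      show Γ.dist (f (x1, y m)) (f (x1 + ε, y m + k)) ≤ n + 2
      omega)
  obtain ⟨i', j', hij', hj'E, hne'⟩ := hE _ hf.swap (fun i => y (μ i)) (fun i j h1 h2 =>
    hy _ _ (hμ1 i j h1 h2) (hμ2 j h2))
  obtain ⟨i, hi⟩ : ∃ i, μ i' = i := ⟨_, rfl⟩
  obtain ⟨j, hj⟩ : ∃ j, μ j' = j := ⟨_, rfl⟩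
  have hlt : i < j := by rw [← hi, ← hj]; exact hμ1 i' j' hij' hj'E
  have hjM : j ≤ M := by rw [← hj]; exact hμ2 j' hj'E
  have hij : D i = D j := by rw [← hi, ← hj, hμ3 i' (by omega), hμ3 j' hj'E]
  simp only [hi, hj] at hne'
  have hfin := hrel i j hlt hjM
  have hyi := hy0 i (by omega)
  have hyj := hyM j hjM
  obtain ⟨t, ht⟩ : ∃ t, y i = t := ⟨_, rfl⟩
  obtain ⟨t', ht'⟩ : ∃ t', y j = t' := ⟨_, rfl⟩
  have htt : t < t' := by rw [← ht, ← ht']; exact hy i j hlt hjM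
  rw [ht, ht'] at hne' hfin
  rw [ht] at hyi
  rw [ht'] at hyj
  rw [half_flat hG.med hf 0 x1 t', half_flat hG.med hf 0 x1 t] at hfin
  -- the vertical shift
  obtain ⟨γ, hγ⟩ : ∃ γ : G, ∀ k : ℕ, k ≤ n + 1 → γ • f (x1, t + k) = f (x1, t' + k) ∧
      γ • f (x1 + 1, t + k) = f (x1 + 1, t' + k) := by
    refine ⟨(γ' (f (x1, y j)))⁻¹ * γ' (f (x1, y i)), fun k hk => ⟨?_, ?_⟩⟩
    · have h1 := congrFun hij (⟨k, by omega⟩, 0)
      simp only [D, Fin.val_zero, Nat.cast_zero, add_zero] at h1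
      rw [mul_smul, ← ht, h1, inv_smul_smul, ht']
    · have h1 := congrFun hij (⟨k, by omega⟩, 1)
      simp only [D, Fin.val_one, Nat.cast_one] at h1
      rw [mul_smul, ← ht, h1, inv_smul_smul, ht']
  set c : ℕ → V := fun k => f (x1, t + k) with hc
  set c' : ℕ → V := fun k => f (x1, t' + k) with hc'
  have hcup : ∀ (x y : ℤ) (k : ℕ), Γ.Adj (f (x, y + k)) (f (x, y + ((k + 1 : ℕ) : ℤ))) := by
    intro x y k
    push_cast
    rw [← add_assoc]
    exact hf.up x (y + k)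
  have hcside : ∀ (x x' y : ℤ) (k : ℕ), side Γ (f (x, y + k)) (f (x, y + ((k + 1 : ℕ) : ℤ))) =
      side Γ (f (x', y + k)) (f (x', y + ((k + 1 : ℕ) : ℤ))) := by
    intro x x' y k
    push_cast
    rw [← add_assoc]
    exact side_flat hG.med hf x x' (y + k)
  obtain ⟨R, hR⟩ := near hG n c c' (fun k _ => hcup x1 t' k) hfin
  -- the element `s` preserves the sets of parallel paths
  have hsc : ∀ z : ℤ, y 0 ≤ z → z ≤ y M → ∀ k ≤ n, side Γ (s • f (x1, z + (k : ℕ)))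
      (s • f (x1, z + ((k + 1 : ℕ) : ℤ))) =
      side Γ (f (x1, z + (k : ℕ))) (f (x1, z + ((k + 1 : ℕ) : ℤ))) := by
    intro z h1 h2 k hk
    rw [(hs' (z + k) (by omega) (by omega)).1, (hs' (z + (k + 1 : ℕ)) (by omega)
      (by push_cast; omega)).1]
    exact hcside x2 x1 z k
  have hsP : ∀ p, Par Γ n c p → Par Γ n c (s • p) := fun p hp =>
    Par.smul hG s (fun k hk => hsc t hyi (by omega) k hk) hp
  have hsP' : ∀ p, Par Γ n c' p → Par Γ n c' (s • p) := fun p hp =>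
    Par.smul hG s (fun k hk => hsc t' (by omega) hyj k hk) hp
  have hsP'' : ∀ p, Par Γ n c' p → Par Γ n c' (s⁻¹ • p) := fun p hp =>
    Par.smul hG s⁻¹ (fun k hk => by
      have h1 := side_congr hG s⁻¹ (hsc t' (by omega) hyj k hk)
      rw [inv_smul_smul, inv_smul_smul] at h1
      exact h1.symm) hp
  have hγP : ∀ p, Par Γ n c' p → Par Γ n c (γ⁻¹ • p) := fun p hp =>
    Par.smul hG γ⁻¹ (fun k hk => by
      have h1 := (hγ k (by omega)).1
      have h2 := (hγ (k + 1) (by omega)).1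
      show side Γ (γ⁻¹ • f (x1, t' + (k : ℕ))) (γ⁻¹ • f (x1, t' + ((k + 1 : ℕ) : ℤ))) = _
      rw [← h1, ← h2, inv_smul_smul, inv_smul_smul]) hp
  -- vertices of the flat
  obtain ⟨sa, sb⟩ := hs' t' (by omega) (by omega)
  obtain ⟨sa1, -⟩ := hs' (t' + 1) (by omega) (by omega)
  obtain ⟨sc, sd⟩ := hs' t hyi (by omega)
  obtain ⟨sc1, -⟩ := hs' (t + 1) (by omega) (by omega)
  have γ0 : γ • f (x1, t) = f (x1, t') ∧ γ • f (x1 + 1, t) = f (x1 + 1, t') := by
    simpa using hγ 0 (by omega)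
  have γ1 : γ • f (x1, t + 1) = f (x1, t' + 1) := by
    have := (hγ 1 (by omega)).1
    push_cast at this
    exact this
  have hsW : ∀ v, Γ.dist v (s • f (x1 + 1, t')) < Γ.dist v (s • f (x1, t')) →
      Γ.dist v (f (x1 + 1, t')) < Γ.dist v (f (x1, t')) := by
    intro v hv
    rw [sa, sb] at hv
    exact hnest t' v hv
  have hsW' : ¬ Γ.dist (f (x1 + 1, t')) (s • f (x1 + 1, t')) <
      Γ.dist (f (x1 + 1, t')) (s • f (x1, t')) := by
    intro h
    rw [sa, sb] at h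
    exact not_Rt hf hx t' h
  have hbS : Par Γ n c' (f (x1 + 1, t')) := by
    refine ⟨fun k => f (x1 + 1, t' + k), by simp, fun k _ => ⟨hcup (x1 + 1) t' k, ?_⟩⟩
    exact hcside (x1 + 1) x1 t' k
  have haS : Par Γ n c' (f (x1, t')) := by
    refine ⟨c', by simp [hc'], fun k _ => ⟨hcup x1 t' k, rfl⟩⟩
  refine regular hG (Par.cvx hG.med n c') (s * γ⁻¹) (R := R) (fun p hp => ?_)
    (t := f (x1, t')) (t' := f (x1, t' + 1)) (hf.up x1 t') (fun p hp => ?_) (fun v hv => ?_)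
    (f (x1, t' + 1)) ?_ ?_ (a := f (x1, t')) (b := f (x1 + 1, t')) (hf.right x1 t')
    (fun v hv => ?_) (f (x1 + 1, t')) ?_ ?_ (fun r => ?_) (fun r => ?_)
  · rw [mul_smul]
    exact hR _ (hsP _ (hγP p hp))
  · obtain ⟨u, rfl, hu⟩ := hp
    obtain ⟨h1, h2⟩ := hu 0 (Nat.zero_le n)
    have h3 : side Γ (c' 0) (c' (0 + 1)) = side Γ (f (x1, t')) (f (x1, t' + 1)) := by
      simp [hc']
    rw [h3] at h2
    have h4 : u 0 ∈ side Γ (f (x1, t')) (f (x1, t' + 1)) := by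
      rw [← h2]
      show Γ.dist (u 0) (u 0) < Γ.dist (u 0) (u (0 + 1))
      rw [SimpleGraph.dist_self, d1 h1]
      norm_num
    have h5 : u (0 + 1) ∉ side Γ (f (x1, t')) (f (x1, t' + 1)) := by
      rw [← h2]
      show ¬ Γ.dist (u (0 + 1)) (u 0) < Γ.dist (u (0 + 1)) (u (0 + 1))
      rw [SimpleGraph.dist_self]
      omega
    change Γ.dist (u 0) (f (x1, t')) < Γ.dist (u 0) (f (x1, t' + 1)) at h4
    change ¬ Γ.dist (u (0 + 1)) (f (x1, t')) < Γ.dist (u (0 + 1)) (f (x1, t' + 1)) at h5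
    have s1 := step hG.med (hf.up x1 t') (u (0 + 1))
    exact ⟨u (0 + 1), h1, by omega, by omega⟩
  · -- `θ⁻¹` maps the upper half-space into itself
    rw [mul_inv_rev, inv_inv, mul_smul]
    have h1 : Γ.dist (s⁻¹ • v) (f (x1, t' + 1)) < Γ.dist (s⁻¹ • v) (f (x1, t')) := by
      rw [← hG.dist s, ← hG.dist s (s⁻¹ • v) (f (x1, t')), smul_inv_smul, sa, sa1]
      exact (Rt_row hG.med hf.swap t' x1 x2 v).1 hv
    have h2 : Γ.dist (s⁻¹ • v) (f (x1, t + 1)) < Γ.dist (s⁻¹ • v) (f (x1, t)) :=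
      hne' x1 _ h1
    rw [← γ1, ← γ0.1, hG.dist, hG.dist]
    exact h2
  · rw [SimpleGraph.dist_self, d1 (hf.up x1 t').symm]
    norm_num
  · rw [mul_smul, ← γ1, inv_smul_smul, sc1, γ1]
    have e1 := hf (x2, t + 1) (x1, t' + 1)
    have e2 := hf (x2, t + 1) (x1, t')
    simp only at e1 e2
    rw [abs_of_nonneg (by omega), abs_of_nonpos (by omega)] at e1 e2
    omega
  · rw [mul_smul]
    rw [← γ0.1, ← γ0.2, ← hG.dist γ⁻¹, ← hG.dist γ⁻¹ v (γ • f (x1, t)), inv_smul_smul,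
      inv_smul_smul, ← hG.dist s, ← hG.dist s (γ⁻¹ • v) (f (x1, t)), sc, sd] at hv
    exact (Rt_row hG.med hf x1 t t' _).1 (hnest t _ hv)
  · rw [SimpleGraph.dist_self, d1 (hf.right x1 t').symm]
    norm_num
  · intro h
    rw [← hG.dist (s * γ⁻¹), ← hG.dist (s * γ⁻¹) _ (f (x1, t')), smul_inv_smul, mul_smul,
      mul_smul, ← γ0.1, ← γ0.2, inv_smul_smul, inv_smul_smul, sc, sd, γ0.2] at h
    have e1 := hf (x1 + 1, t') (x2 + 1, t)
    have e2 := hf (x1 + 1, t') (x2, t)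
    simp only at e1 e2
    rw [abs_of_nonpos (by omega), abs_of_nonneg (by omega)] at e1 e2
    omega
  · refine ⟨s ^ r • f (x1 + 1, t'), ?_, fun x hx' => ?_⟩
    · induction r with
      | zero => simpa using hbS
      | succ r ih =>
        rw [pow_succ', mul_smul]
        exact hsP' _ ih
    · have h1 := growth hG (hf.right x1 t') s hsW hsW' _ r x (s ^ r • f (x1 + 1, t')) rfl hx' (by
        rw [hG.dist, hG.dist, SimpleGraph.dist_self, d1 (hf.right x1 t').symm]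
        norm_num)
      rw [SimpleGraph.dist_comm]
      omega
  · refine ⟨(s⁻¹) ^ r • f (x1, t'), ?_, fun x hx' => ?_⟩
    · induction r with
      | zero => simpa using haS
      | succ r ih =>
        rw [pow_succ', mul_smul]
        exact hsP'' _ ih
    · have h1 := growth hG (hf.right x1 t') s hsW hsW' _ r (f (x1, t')) (s ^ r • x) rfl (by
        rw [SimpleGraph.dist_self, d1 (hf.right x1 t')]
        norm_num) (by
        rw [hG.dist, hG.dist]
        exact hx')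
      rw [← hG.dist (s ^ r), ← mul_smul, inv_pow, mul_inv_cancel, one_smul]
      omega

end Pool.Agent.W8h56.SW
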